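import Pool.Agent.W870.PD.Final
import Pool.Agent.W400.PC.PT

set_option autoImplicit false
set_option linter.all false

open MeasureTheory Set Pool.Agent.H978R2 Pool.Agent.W804.HP

namespace Pool.Agent.W870.PD

lemma bern_eq (q : unitInterval) (p : NNReal) (hp : p ≤ 1) (h : (q : ℝ) = p) :
    Pool.Agent.W783.PC.bern q = (PMF.bernoulli p hp).toMeasure := by
  refine Measure.ext_of_singleton fun b => ?_
  cases b
  · rw [Pool.Agent.W400.PC.bern_false, Pool.Agent.H978R2.bern_false, h]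
    have h1 : (1 : ENNReal) - p = ENNReal.ofReal 1 - ENNReal.ofReal (p : ℝ) := by simp
    rw [h1]
    exact ENNReal.ofReal_sub 1 (NNReal.coe_nonneg p)
  · rw [Pool.Agent.W400.PC.bern_true, Pool.Agent.H978R2.bern_true, h]
    simp

lemma bm_eq_pm (ι : Type) (p : NNReal) (hp : p ≤ 1) :
    bm ι p hp = Pool.Agent.W783.PC.pm (fun _ : ι => (⟨p, p.2, by exact_mod_cast hp⟩ : unitInterval)) := by
  unfold bm Pool.Agent.W783.PC.pm
  congr 1
  funext _
  exact (bern_eq _ p hp rfl).symm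

lemma bm_mono {ι : Type} {p p' : NNReal} (hp : p ≤ 1) (hp' : p' ≤ 1) (h : p ≤ p')
    {A : Set (ι → Bool)} (hA : IsUpperSet A) (hm : MeasurableSet A) :
    (bm ι p hp).real A ≤ (bm ι p' hp').real A := by
  unfold Measure.real
  refine ENNReal.toReal_mono (measure_ne_top _ _) ?_
  rw [bm_eq_pm, bm_eq_pm]
  refine Pool.Agent.W400.PC.s_mono ι _ _ A (fun c => ?_) ?_ hm
  · exact_mod_cast h
  · intro ω ω' hω hω2
    refine hA ?_ hω2
    intro i
    cases hi : ω i
    · exact Bool.false_le _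
    · rw [hω i hi]

lemma upper_InfB (d : ℕ) : IsUpperSet (InfB (0 : Fin d → ℤ)) := by
  intro ω ω' h hω
  refine Set.Infinite.mono ?_ hω
  intro y hy
  refine SimpleGraph.Reachable.mono ?_ hy
  intro a b hab
  exact ⟨hab.1, trivial, trivial, by
    have := h s(a, b)
    rw [hab.2.2.2] at this
    exact le_antisymm (Bool.le_true _) this⟩

lemma upper_InfS (d : ℕ) : IsUpperSet (InfS (0 : Fin d → ℤ)) := by
  intro ω ω' h hω
  refine Set.Infinite.mono ?_ hω
  intro y hy
  exact SimpleGraph.Reachable.mono (openS_mono h (fun _ h => h)) hy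

/-- critical parameter of bond percolation -/
noncomputable def pcB (d : ℕ) : NNReal :=
  sSup {p : NNReal | ∃ hp : p ≤ 1, (bm _ p hp).real (InfB (0 : Fin d → ℤ)) = 0}

/-- critical parameter of site percolation -/
noncomputable def pcS (d : ℕ) : NNReal :=
  sSup {p : NNReal | ∃ hp : p ≤ 1, (bm _ p hp).real (InfS (0 : Fin d → ℤ)) = 0}

lemma pcB_le (d : ℕ) : pcB d ≤ 1 := csSup_le' fun _ h => h.1
lemma pcS_le (d : ℕ) : pcS d ≤ 1 := csSup_le' fun _ h => h.1

lemma below_pcB (d : ℕ) (p : NNReal) (hp : p ≤ 1) (h : p < pcB d) :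
    (bm _ p hp).real (InfB (0 : Fin d → ℤ)) = 0 := by
  obtain ⟨p', ⟨hp', h0⟩, hlt⟩ := exists_lt_of_lt_csSup' h
  refine le_antisymm ?_ measureReal_nonneg
  rw [← h0]
  exact bm_mono hp hp' hlt.le (upper_InfB d) (meas_InfB 0)

lemma below_pcS (d : ℕ) (p : NNReal) (hp : p ≤ 1) (h : p < pcS d) :
    (bm _ p hp).real (InfS (0 : Fin d → ℤ)) = 0 := by
  obtain ⟨p', ⟨hp', h0⟩, hlt⟩ := exists_lt_of_lt_csSup' h
  refine le_antisymm ?_ measureReal_nonneg
  rw [← h0]
  exact bm_mono hp hp' hlt.le (upper_InfS d) (meas_InfS 0)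

end Pool.Agent.W870.PD
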