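import Pool.Agent.W870.PD.DomMt

set_option autoImplicit false
set_option linter.all false

open MeasureTheory Set Pool.Agent.H978R2 Pool.Agent.W804.HP

namespace Pool.Agent.W870.PD

lemma num_exp (d : ℕ) : ∀ᶠ q : ℕ in Filter.atTop,
    ((q : ℝ) * (9 * q ^ 50) ^ d) ^ 3 * Real.exp (-(q : ℝ)) ≤ 1 := by
  have h1 := (Real.tendsto_pow_mul_exp_neg_atTop_nhds_zero (3 + 150 * d)).comp
    (tendsto_natCast_atTop_atTop (R := ℝ))
  have h2 := h1.const_mul ((9 : ℝ) ^ (3 * d))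
  rw [mul_zero] at h2
  have h3 := (tendsto_order.1 h2).2 1 one_pos
  filter_upwards [h3] with q hq
  refine le_trans (le_of_eq ?_) hq.le
  show ((q : ℝ) * (9 * q ^ 50) ^ d) ^ 3 * Real.exp (-(q : ℝ)) =
    9 ^ (3 * d) * ((q : ℝ) ^ (3 + 150 * d) * Real.exp (-(q : ℝ)))
  have e : ((q : ℝ) * (9 * q ^ 50) ^ d) ^ 3 = 9 ^ (3 * d) * (q : ℝ) ^ (3 + 150 * d) := by
    rw [mul_pow, mul_pow, mul_pow, ← pow_mul, ← pow_mul, ← pow_mul, pow_add]
    ring_nf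
  rw [e, mul_assoc]

lemma num_two (d : ℕ) : ∀ᶠ q : ℕ in Filter.atTop,
    (q : ℝ) * (9 * q ^ 50) ^ d ≤ 2 ^ q := by
  have h1 := tendsto_pow_const_div_const_pow_of_one_lt (50 * d + 1) (one_lt_two (α := ℝ))
  have h2 := h1.const_mul ((9 : ℝ) ^ d)
  rw [mul_zero] at h2
  have h3 := (tendsto_order.1 h2).2 1 one_pos
  filter_upwards [h3] with q hq
  have h4 : (9 : ℝ) ^ d * ((q : ℝ) ^ (50 * d + 1) / 2 ^ q) = (9 ^ d * (q : ℝ) ^ (50 * d + 1)) / 2 ^ q := by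
    ring
  rw [h4, div_lt_one (by positivity)] at hq
  refine le_trans (le_of_eq ?_) hq.le
  rw [mul_pow, ← pow_mul, pow_succ]
  ring

/-- all the numerical conditions -/
lemma num (d : ℕ) (hd : 3 ≤ d) : ∃ q0 : ℕ, ∀ q : ℕ, q0 ≤ q →
    ((q : ℝ) * (9 * q ^ 50) ^ d) ^ 3 * Real.exp (-(q : ℝ)) ≤ 1 ∧
    (q : ℝ) * (9 * q ^ 50) ^ d ≤ 2 ^ q ∧
    176 * d * 3 ^ d * 10 ^ 16 ≤ q ∧ (64 * d) ^ 6 + 1 ≤ q := by
  have h1 := (num_exp d).and (num_two d)
  obtain ⟨q1, hq1⟩ := Filter.eventually_atTop.1 h1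
  refine ⟨max q1 (176 * d * 3 ^ d * 10 ^ 16 + ((64 * d) ^ 6 + 1)), fun q hq => ?_⟩
  have h2 := hq1 q ((le_max_left _ _).trans hq)
  have h3 := (le_max_right _ _).trans hq
  exact ⟨h2.1, h2.2, (Nat.le_add_right _ _).trans h3, (Nat.le_add_left _ _).trans h3⟩

theorem main (hA : S_akn) (hI1 : S_iso1) (hI2 : S_iso2) : S_main := by
  classical
  intro d hd
  obtain ⟨q0, hq0⟩ := num d hd
  refine ⟨q0, ?_⟩
  intro ι V p hp M hq hvoid u
  obtain ⟨n1, n2, n3, n4⟩ := hq0 M.q hq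
  set q := M.q with hqdef
  have hqpos : 0 < q := by have := M.q_pos; omega
  have hqR : (0 : ℝ) < q := by exact_mod_cast hqpos
  have hd3 : 3 ≤ 3 ^ d := by
    calc 3 = 3 ^ 1 := by norm_num
      _ ≤ 3 ^ d := Nat.pow_le_pow_right (by norm_num) (by omega)
  have hq16 : 10 ^ 17 ≤ q := by
    have h1 : 1 ≤ d := by omega
    have h2 : 1 * 1 * 3 * 10 ^ 16 ≤ d * 1 * 3 ^ d * 10 ^ 16 := by gcongr
    have h3 : 176 * (1 * 1 * 3 * 10 ^ 16) ≤ 176 * (d * 1 * 3 ^ d * 10 ^ 16) := Nat.mul_le_mul_left _ h2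
    have h4 : 176 * (d * 1 * 3 ^ d * 10 ^ 16) = 176 * d * 3 ^ d * 10 ^ 16 := by ring
    omega
  have hq1 : 1 ≤ q := by omega
  set t := q ^ 50 with ht
  have htpos : 0 < t := by positivity
  have hqt : q ≤ t := by rw [ht]; exact Nat.le_self_pow (by norm_num) q
  have hγ : M.γ ≤ q := M.hγ
  -- cardinalities
  have hcard : ∀ w : Fin d → ℤ, ((M.F w (4 * t)).card : ℝ) * ((M.E w (4 * t)).card : ℝ) ^ 2 *
      Real.exp (-(M.q : ℝ)) ≤ 1 := by
    intro w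
    refine le_trans ?_ n1
    have hb : (q * (2 * (4 * t) + 1) ^ d : ℕ) ≤ q * (9 * q ^ 50) ^ d := by
      refine Nat.mul_le_mul_left _ (Nat.pow_le_pow_left ?_ _)
      omega
    have h1 : ((M.F w (4 * t)).card : ℝ) ≤ q * (9 * q ^ 50) ^ d := by
      exact_mod_cast (M.card_F w (4 * t)).trans hb
    have h2 : ((M.E w (4 * t)).card : ℝ) ≤ q * (9 * q ^ 50) ^ d := by
      exact_mod_cast (M.card_E w (4 * t)).trans hb
    have h3 : ((M.F w (4 * t)).card : ℝ) * ((M.E w (4 * t)).card : ℝ) ^ 2 ≤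
        ((q : ℝ) * (9 * q ^ 50) ^ d) ^ 3 := by
      calc _ ≤ ((q : ℝ) * (9 * q ^ 50) ^ d) * ((q : ℝ) * (9 * q ^ 50) ^ d) ^ 2 := by gcongr
        _ = _ := by ring
    exact mul_le_mul_of_nonneg_right h3 (Real.exp_pos _).le
  -- the halls
  have hhall : ∀ (w : Fin d → ℤ) (s : ℕ), s ≤ 3 * t →
      (bm ι p hp).real (M.Hall w (4 * t) s)ᶜ ≤ (2 * (s : ℝ) + 1) ^ d * (1 / (q : ℝ) ^ (200 * d)) := by
    intro w s hs
    exact M.hall_prob w (m := 8 * q ^ 50) (by omega) (by omega) hvoid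
  have hpow49 : (49 : ℝ) ≤ q := by
    have : 49 ≤ q := by omega
    exact_mod_cast this
  have hq1R : (1 : ℝ) ≤ q := by exact_mod_cast hq1
  have hH : ∀ (w : Fin d → ℤ) (s : ℕ), s ≤ 3 * t →
      M.q * (2 * (s : ℝ) + 1) ^ d * (bm ι p hp).real (M.Hall w (4 * t) s)ᶜ ≤ 1 := by
    intro w s hs
    have h1 := hhall w s hs
    have h2 : (0 : ℝ) ≤ q * (2 * (s : ℝ) + 1) ^ d := by positivity
    have h3 := mul_le_mul_of_nonneg_left h1 h2
    refine h3.trans ?_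
    have h4 : 2 * (s : ℝ) + 1 ≤ 7 * (q : ℝ) ^ 50 := by
      have : 2 * s + 1 ≤ 7 * q ^ 50 := by omega
      exact_mod_cast this
    have h5 : (q : ℝ) * (2 * (s : ℝ) + 1) ^ d * ((2 * (s : ℝ) + 1) ^ d) ≤ (q : ℝ) ^ (200 * d) := by
      have h6 : (2 * (s : ℝ) + 1) ^ d ≤ (7 * (q : ℝ) ^ 50) ^ d := by gcongr
      calc (q : ℝ) * (2 * (s : ℝ) + 1) ^ d * ((2 * (s : ℝ) + 1) ^ d)
          ≤ (q : ℝ) * (7 * (q : ℝ) ^ 50) ^ d * (7 * (q : ℝ) ^ 50) ^ d := by gcongr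
        _ = 49 ^ d * ((q : ℝ) * (q : ℝ) ^ (100 * d)) := by
            have e49 : (49 : ℝ) ^ d = 7 ^ d * 7 ^ d := by rw [← mul_pow]; norm_num
            rw [mul_pow, ← pow_mul, e49]
            have : (q : ℝ) ^ (100 * d) = (q : ℝ) ^ (50 * d) * (q : ℝ) ^ (50 * d) := by
              rw [← pow_add]; congr 1; ring
            rw [this]
            ring
        _ ≤ (q : ℝ) ^ d * ((q : ℝ) * (q : ℝ) ^ (100 * d)) := by gcongr
        _ = (q : ℝ) ^ (101 * d + 1) := by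
            rw [show 101 * d + 1 = d + 1 + 100 * d by ring, pow_add, pow_add, pow_one]; ring
        _ ≤ (q : ℝ) ^ (200 * d) := pow_le_pow_right₀ hq1R (by omega)
    have h6 : (0 : ℝ) < (q : ℝ) ^ (200 * d) := by positivity
    calc (q : ℝ) * (2 * (s : ℝ) + 1) ^ d * ((2 * (s : ℝ) + 1) ^ d * (1 / (q : ℝ) ^ (200 * d)))
        = ((q : ℝ) * (2 * (s : ℝ) + 1) ^ d * ((2 * (s : ℝ) + 1) ^ d)) / (q : ℝ) ^ (200 * d) := by ring
      _ ≤ 1 := by rw [div_le_one h6]; exact h5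
  -- the recursion
  have hrec : ∀ w : Fin d → ℤ, M.eS w (4 * t) (2 * t) ≤
      4 * M.q * Real.sqrt ((2 * (4 * t : ℕ) + 1) ^ d) + 5 := by
    intro w
    refine M.eS_bound hA hI1 hd w (n := 4 * t) (g := 64 * d * M.q ^ 6) (T := 3 * t) (J := q)
      (t1 := 2 * t) (by omega) ?_ le_rfl (hcard w) (hH w) ?_
    · have h1 : q * ((64 * d * M.q ^ 6) ^ 6 + M.γ) ≤ q ^ 50 := by
        calc q * ((64 * d * q ^ 6) ^ 6 + M.γ) ≤ q * ((64 * d * q ^ 6) ^ 6 + q ^ 36) := by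
              have : M.γ ≤ q ^ 36 := hγ.trans (Nat.le_self_pow (by norm_num) q)
              gcongr
          _ = ((64 * d) ^ 6 + 1) * q ^ 37 := by ring
          _ ≤ q * q ^ 37 := Nat.mul_le_mul_right _ n4
          _ = q ^ 38 := by ring
          _ ≤ q ^ 50 := Nat.pow_le_pow_right hqpos (by norm_num)
      omega
    · refine le_trans ?_ n2
      have h1 : (2 * ((4 * t : ℕ) : ℝ) + 1) ≤ 9 * (q : ℝ) ^ 50 := by
        have : 2 * (4 * t) + 1 ≤ 9 * q ^ 50 := by omega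
        exact_mod_cast this
      gcongr
  -- square root
  have hsqrt : Real.sqrt ((2 * ((4 * t : ℕ) : ℝ) + 1) ^ d) ≤ 3 ^ d * (q : ℝ) ^ (25 * d) := by
    rw [Real.sqrt_le_left (by positivity)]
    have h1 : (2 * ((4 * t : ℕ) : ℝ) + 1) ≤ 9 * (q : ℝ) ^ 50 := by
      have : 2 * (4 * t) + 1 ≤ 9 * q ^ 50 := by omega
      exact_mod_cast this
    calc (2 * ((4 * t : ℕ) : ℝ) + 1) ^ d ≤ (9 * (q : ℝ) ^ 50) ^ d := by gcongr
      _ = (3 ^ d * (q : ℝ) ^ (25 * d)) ^ 2 := by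
          rw [mul_pow, mul_pow, ← pow_mul, ← pow_mul, ← pow_mul, show (9 : ℝ) = 3 ^ 2 by norm_num,
            ← pow_mul]
          ring_nf
  -- dominating clusters
  have hdom : ∀ w : Fin d → ℤ, (bm ι p hp).real (M.Dom w (4 * t) t)ᶜ ≤ 2 / 10 ^ 16 := by
    intro w
    have h1 := M.dom_prob hI2 (by omega) w (4 * t) t
    have h2 : (bm ι p hp).real (M.Hall w (4 * t) t)ᶜ ≤ 1 / 10 ^ 16 := by
      refine (hhall w t (by omega)).trans ?_
      have h3 : 2 * (t : ℝ) + 1 ≤ 3 * (q : ℝ) ^ 50 := by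
        have : 2 * t + 1 ≤ 3 * q ^ 50 := by omega
        exact_mod_cast this
      have h4 : (2 * (t : ℝ) + 1) ^ d * 10 ^ 16 ≤ (q : ℝ) ^ (200 * d) := by
        have h5 : (10 : ℝ) ^ 16 ≤ (q : ℝ) ^ d := by
          have h6 : 10 ^ 16 ≤ q := by omega
          have h7 : q ≤ q ^ d := Nat.le_self_pow (by omega) q
          exact_mod_cast h6.trans h7
        have h3q : (3 : ℝ) ≤ q := by linarith
        calc (2 * (t : ℝ) + 1) ^ d * 10 ^ 16 ≤ (3 * (q : ℝ) ^ 50) ^ d * (q : ℝ) ^ d := by gcongr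
          _ ≤ ((q : ℝ) * (q : ℝ) ^ 50) ^ d * (q : ℝ) ^ d := by gcongr
          _ = (q : ℝ) ^ (52 * d) := by
              rw [← pow_succ', ← pow_mul, ← pow_add]; congr 1; ring
          _ ≤ (q : ℝ) ^ (200 * d) := pow_le_pow_right₀ hq1R (by omega)
      rw [mul_one_div, div_le_div_iff₀ (by positivity) (by norm_num), one_mul]
      exact h4
    have h3 : 16 / (2 * (t : ℝ) + 1) ^ (d - 1) * EE (M.E w (4 * t)) p (M.NB w (4 * t) t) ≤
        1 / 10 ^ 16 := by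
      have h4 := M.ENB_le hA w (n := 4 * t) (t := t) (by omega) (hcard w)
      have h5 : M.eS w (4 * t) (t + M.γ) ≤ 5 * (3 ^ d * (q : ℝ) ^ (25 * d + 1)) := by
        refine (M.eS_mono w (4 * t) (by omega : t + M.γ ≤ 2 * t)).trans ((hrec w).trans ?_)
        have h6 := mul_le_mul_of_nonneg_left hsqrt (by positivity : (0 : ℝ) ≤ 4 * (q : ℝ))
        have h7 : (5 : ℝ) ≤ 3 ^ d * (q : ℝ) ^ (25 * d + 1) := by
          have h8 : (1 : ℝ) ≤ 3 ^ d := one_le_pow₀ (by norm_num)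
          have h9 : (q : ℝ) ≤ (q : ℝ) ^ (25 * d + 1) := by
            have := pow_le_pow_right₀ hq1R (by omega : 1 ≤ 25 * d + 1)
            rwa [pow_one] at this
          nlinarith
        have h8 : 4 * (q : ℝ) * (3 ^ d * (q : ℝ) ^ (25 * d)) = 4 * (3 ^ d * (q : ℝ) ^ (25 * d + 1)) := by
          rw [pow_succ]; ring
        linarith
      set X : ℝ := 3 ^ d * (q : ℝ) ^ (25 * d + 1) with hX
      have hX1 : 1 ≤ X := by
        rw [hX]
        exact one_le_mul_of_one_le_of_one_le (one_le_pow₀ (by norm_num)) (one_le_pow₀ hq1R)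
      have h6 : 2 * (q : ℝ) * M.eS w (4 * t) (t + M.γ) + 1 ≤ 11 * (q * X) := by
        have h7 := mul_le_mul_of_nonneg_left h5 (by positivity : (0 : ℝ) ≤ 2 * (q : ℝ))
        have h8 : 1 ≤ q * X := one_le_mul_of_one_le_of_one_le hq1R hX1
        linarith
      have h7 : EE (M.E w (4 * t)) p (M.NB w (4 * t) t) ≤ 11 * d * 3 ^ d * (q : ℝ) ^ (25 * d + 7) := by
        refine h4.trans ?_
        have h8 := mul_le_mul_of_nonneg_left h6 (by positivity : (0 : ℝ) ≤ d * (q : ℝ) ^ 5)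
        refine h8.trans (le_of_eq ?_)
        rw [hX, show 25 * d + 7 = (25 * d + 1) + 6 by ring, pow_add (q : ℝ) (25 * d + 1) 6]
        ring
      have hpos : (0 : ℝ) < (2 * (t : ℝ) + 1) ^ (d - 1) := by positivity
      rw [div_mul_eq_mul_div, div_le_div_iff₀ hpos (by norm_num), one_mul]
      have h8 : (q : ℝ) ^ (25 * d + 8) ≤ (2 * (t : ℝ) + 1) ^ (d - 1) := by
        have h9 : (q : ℝ) ^ 50 ≤ 2 * (t : ℝ) + 1 := by
          have : q ^ 50 ≤ 2 * t + 1 := by omega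
          exact_mod_cast this
        calc (q : ℝ) ^ (25 * d + 8) ≤ (q : ℝ) ^ (50 * (d - 1)) := pow_le_pow_right₀ hq1R (by omega)
          _ = ((q : ℝ) ^ 50) ^ (d - 1) := by rw [pow_mul]
          _ ≤ _ := by gcongr
      have h9 : 16 * (11 * d * 3 ^ d * (q : ℝ) ^ (25 * d + 7)) * 10 ^ 16 ≤ (q : ℝ) ^ (25 * d + 8) := by
        have h10 : (176 * (d : ℝ) * 3 ^ d * 10 ^ 16) ≤ q := by exact_mod_cast n3
        have h11 := mul_le_mul_of_nonneg_right h10 (by positivity : (0 : ℝ) ≤ (q : ℝ) ^ (25 * d + 7))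
        have h12 : (q : ℝ) * (q : ℝ) ^ (25 * d + 7) = (q : ℝ) ^ (25 * d + 8) := by
          rw [← pow_succ']
        rw [h12] at h11
        refine le_trans (le_of_eq ?_) h11
        ring
      have h10 : 16 * EE (M.E w (4 * t)) p (M.NB w (4 * t) t) * 10 ^ 16 ≤
          16 * (11 * d * 3 ^ d * (q : ℝ) ^ (25 * d + 7)) * 10 ^ 16 := by
        gcongr
      linarith
    have h4 : (2 : ℝ) / 10 ^ 16 = 1 / 10 ^ 16 + 1 / 10 ^ 16 := by norm_num
    rw [h4]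
    linarith
  -- matching
  have hmt : ∀ w : Fin d → ℤ, (bm ι p hp).real (M.Mt w (3 * t) t)ᶜ ≤ 1 / 10 ^ 16 := by
    intro w
    have h1 := M.mt_prob w (n := 3 * t) (t := t) (by omega)
    refine h1.trans ?_
    have h2 : (q : ℝ) ^ 25 ≤ Real.sqrt ((3 * t - t - M.γ : ℕ) : ℝ) := by
      refine Real.le_sqrt_of_sq_le ?_
      have h3 : (q : ℝ) ^ 50 ≤ ((3 * t - t - M.γ : ℕ) : ℝ) := by
        have : q ^ 50 ≤ 3 * t - t - M.γ := by omega
        exact_mod_cast this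
      calc ((q : ℝ) ^ 25) ^ 2 = (q : ℝ) ^ 50 := by ring
        _ ≤ _ := h3
    have hs : 0 < Real.sqrt ((3 * t - t - M.γ : ℕ) : ℝ) := lt_of_lt_of_le (by positivity) h2
    rw [div_le_div_iff₀ hs (by norm_num), one_mul]
    refine le_trans ?_ h2
    have h3 : (4 : ℝ) * 10 ^ 16 ≤ q := by
      have h4 : ((10 ^ 17 : ℕ) : ℝ) ≤ q := Nat.cast_le.2 hq16
      push_cast at h4
      linarith
    calc 4 * (q : ℝ) ^ 5 * 10 ^ 16 = (4 * 10 ^ 16) * (q : ℝ) ^ 5 := by ring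
      _ ≤ q * (q : ℝ) ^ 5 := by gcongr
      _ = (q : ℝ) ^ 6 := by ring
      _ ≤ (q : ℝ) ^ 25 := pow_le_pow_right₀ hq1R (by norm_num)
  -- union bound
  have hsub : (M.Good t u)ᶜ ⊆ ⋃ b ∈ (Finset.univ : Finset Bool), ⋃ j ∈ Finset.range 9,
      ((M.Dom (Geo.ctr t u b j) (4 * t) t)ᶜ ∪ (M.Mt (Geo.ctr t u b j) (3 * t) t)ᶜ) := by
    intro ω hω
    have hω' : ¬ ∀ b : Bool, ∀ j ≤ 8, ω ∈ M.Dom (Geo.ctr t u b j) (4 * t) t ∧
      ω ∈ M.Mt (Geo.ctr t u b j) (3 * t) t := hω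
    push Not at hω'
    obtain ⟨b, j, hj, h⟩ := hω'
    simp only [mem_iUnion, exists_prop]
    refine ⟨b, Finset.mem_univ _, j, Finset.mem_range.2 (by omega), ?_⟩
    by_cases hD : ω ∈ M.Dom (Geo.ctr t u b j) (4 * t) t
    · exact Or.inr (h hD)
    · exact Or.inl hD
  refine (measureReal_mono hsub (measure_ne_top _ _)).trans ?_
  refine (measureReal_biUnion_finset_le _ _).trans ?_
  have hb : ∀ b ∈ (Finset.univ : Finset Bool), (bm ι p hp).real (⋃ j ∈ Finset.range 9,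
      ((M.Dom (Geo.ctr t u b j) (4 * t) t)ᶜ ∪ (M.Mt (Geo.ctr t u b j) (3 * t) t)ᶜ)) ≤
      9 * (3 / 10 ^ 16) := by
    intro b _
    refine (measureReal_biUnion_finset_le _ _).trans ?_
    have hj : ∀ j ∈ Finset.range 9, (bm ι p hp).real
        ((M.Dom (Geo.ctr t u b j) (4 * t) t)ᶜ ∪ (M.Mt (Geo.ctr t u b j) (3 * t) t)ᶜ) ≤ 3 / 10 ^ 16 := by
      intro j _
      refine (measureReal_union_le _ _).trans ?_
      have h1 := hdom (Geo.ctr t u b j)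
      have h2 := hmt (Geo.ctr t u b j)
      have h3 : (3 : ℝ) / 10 ^ 16 = 2 / 10 ^ 16 + 1 / 10 ^ 16 := by norm_num
      rw [h3]
      linarith
    refine (Finset.sum_le_card_nsmul _ _ _ hj).trans (le_of_eq ?_)
    rw [Finset.card_range, nsmul_eq_mul]
    norm_num
  refine (Finset.sum_le_card_nsmul _ _ _ hb).trans ?_
  rw [Finset.card_univ, Fintype.card_bool, nsmul_eq_mul]
  norm_num

end Pool.Agent.W870.PD
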