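import Pool.Agent.W870.PD.Crit
import Pool.Agent.W870.PD.Main
import Pool.Agent.W366.PD.InstS
import Pool.Agent.W804.PD.InstB
import Pool.Agent.W21.PD.FinS
import Pool.Agent.W597.PD.FinB
import Pool.Agent.W804.HP.AknR
import Pool.Agent.W90.PD.Coarse
import Pool.Agent.W74.PD.Iso2
import Pool.Agent.W337.PD.Iso1
import Pool.Agent.W337.PD.Cont

set_option autoImplicit false
set_option linter.all false

open MeasureTheory Set Pool.Agent.H978R2 Pool.Agent.W804.HP

namespace Pool.Agent.W870.PD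

theorem s_main : S_main :=
  main Pool.Agent.W804.HP.s_akn (Pool.Agent.W337.PD.iso1 Pool.Agent.W74.PD.iso2)
    Pool.Agent.W74.PD.iso2

theorem s_finB : S_finB :=
  Pool.Agent.W597.PD.finB s_main Pool.Agent.W90.PD.coarse Pool.Agent.W337.PD.cont
    Pool.Agent.W804.PD.instB

theorem s_finS : S_finS :=
  Pool.Agent.W21.PD.finS s_main Pool.Agent.W90.PD.coarse Pool.Agent.W337.PD.cont
    Pool.Agent.W366.PD.instS

/-- the disconnection probability at criticality, bond percolation -/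
theorem mainB {d : ℕ} (hd : 3 ≤ d) (hc : 0 < pcB d ∧ PolB d (pcB d) (pcB_le d)) :
    ∃ C : ℕ, ∀ k n : ℕ, 2 ≤ k → k ^ C ≤ n →
      1 / (k : ℝ) ^ C ≤ (bm _ (pcB d) (pcB_le d)).real (VoidB d k n) := by
  obtain ⟨C, hC1, hC⟩ := finalB s_finB d hd (pcB d) (pcB_le d) hc.1 hc.2 (below_pcB d)
  exact ⟨C, fun k n hk hn => (hC k hk).trans (measureReal_mono
    (voidB_mono le_rfl (Nat.le_self_pow (by omega) k) hn) (measure_ne_top _ _))⟩

/-- the disconnection probability at criticality, site percolation -/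
theorem mainS {d : ℕ} (hd : 3 ≤ d) (hc : 0 < pcS d ∧ PolS d (pcS d) (pcS_le d)) :
    ∃ C : ℕ, ∀ k n : ℕ, 2 ≤ k → k ^ C ≤ n →
      1 / (k : ℝ) ^ C ≤ (bm _ (pcS d) (pcS_le d)).real (VoidS d k n) := by
  obtain ⟨C, hC1, hC⟩ := finalS s_finS d hd (pcS d) (pcS_le d) hc.1 hc.2 (below_pcS d)
  exact ⟨C, fun k n hk hn => (hC k hk).trans (measureReal_mono
    (voidS_mono le_rfl (Nat.le_self_pow (by omega) k) hn) (measure_ne_top _ _))⟩

end Pool.Agent.W870.PD
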