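import Pool.Agent.W870.PD.Defs

set_option autoImplicit false
set_option linter.all false

open MeasureTheory Set Pool.Agent.H978R2 Pool.Agent.W804.HP

namespace Pool.Agent.W870.PD

namespace Geo

variable {d : ℕ} {ι V : Type} (M : Geo d ι V)

lemma mem_cells {w z : Fin d → ℤ} {t : ℕ} {C : Set V} :
    z ∈ M.cells w t C ↔ z ∈ bx w t ∧ M.tc C z := by
  classical
  unfold cells
  rw [Finset.mem_filter]

lemma cells_mono (w : Fin d → ℤ) {t t' : ℕ} (h : t' ≤ t) (C : Set V) :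
    M.cells w t' C ⊆ M.cells w t C := by
  intro z hz
  rw [mem_cells] at *
  exact ⟨bx_mono w h hz.1, hz.2⟩

lemma cells_card_le (w : Fin d → ℤ) (t : ℕ) (C : Set V) :
    (M.cells w t C).card ≤ (2 * t + 1) ^ d := by
  classical
  rw [← card_bx w t]
  unfold cells
  exact Finset.card_filter_le _ _

lemma NR_le (w : Fin d → ℤ) (n t : ℕ) (C : Set V) :
    (NR M.N (M.E w n) (M.E w t) C).card ≤ M.q * (M.cells w t C).card := by
  classical
  have h : NR M.N (M.E w n) (M.E w t) C ⊆ (M.cells w t C).biUnion M.T := by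
    intro i hi
    unfold NR at hi
    rw [Finset.mem_filter] at hi
    obtain ⟨hi1, v, hv, hvC⟩ := hi
    have hi2 : i ∈ M.E w t := (Finset.mem_inter.1 hi1).2
    obtain ⟨z, hz, hvz⟩ := M.cov w t i hi2 v hv
    rw [Finset.mem_biUnion]
    exact ⟨z, M.mem_cells.2 ⟨hz, v, hvz, hvC⟩, M.mem_T w t i z v hi2 hv hvz⟩
  refine (Finset.card_le_card h).trans (Finset.card_biUnion_le.trans ?_)
  refine (Finset.sum_le_card_nsmul _ _ _ fun z _ => M.card_T z).trans ?_
  rw [smul_eq_mul, mul_comm]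

/-- number of clusters touching a cell and satisfying something -/
lemma card_CL_le {w : Fin d → ℤ} {n : ℕ} {ω : ι → Bool} (P : Set V → Prop) [DecidablePred P]
    (S : Finset V) (h : ∀ C ∈ M.CL w n ω, P C → ∃ x ∈ S, x ∈ C) :
    ((M.CL w n ω).filter P).card ≤ S.card := by
  classical
  have hsub : (M.CL w n ω).filter P ⊆ S.image (fun x => cl M.N (M.E w n) ω {x}) := by
    intro C hC
    rw [Finset.mem_filter] at hC
    obtain ⟨x, hx, hxC⟩ := h C hC.1 hC.2
    rw [Finset.mem_image]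
    exact ⟨x, hx, (mem_CC.1 ⟨hC.1, hxC⟩).2.symm⟩
  exact (Finset.card_le_card hsub).trans Finset.card_image_le

/-- total volume of the clusters -/
lemma vol_sum (w : Fin d → ℤ) (n t : ℕ) (ω : ι → Bool) :
    ∑ C ∈ M.CL w n ω, (M.cells w t C).card ≤ M.q * (2 * t + 1) ^ d := by
  classical
  have h1 : ∀ C : Set V, (M.cells w t C).card = ∑ z ∈ bx w t, if M.tc C z then 1 else 0 := by
    intro C
    unfold cells
    rw [Finset.card_filter]
  simp only [h1]
  rw [Finset.sum_comm]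
  have h2 : ∀ z ∈ bx w t, ∑ C ∈ M.CL w n ω, (if M.tc C z then 1 else 0) ≤ M.q := by
    intro z _
    rw [← Finset.card_filter]
    exact (M.card_CL_le (fun C => M.tc C z) (M.U z) fun C _ h => h).trans (M.card_U z)
  refine (Finset.sum_le_card_nsmul _ _ _ h2).trans ?_
  rw [card_bx, smul_eq_mul, mul_comm]

/-- the levels crossed by a cluster -/
lemma level {w : Fin d → ℤ} {n t t' : ℕ} {ω : ι → Bool} {C : Set V} (hC : C ∈ M.CL w n ω)
    (h' : t' ≤ t) (h : t ≤ n) (hne : (M.cells w t' C).Nonempty) :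
    t - t' ≤ (M.cells w t C).card := by
  classical
  obtain ⟨z, hz⟩ := hne
  rw [mem_cells] at hz
  obtain ⟨hz, v, hvz, hvC⟩ := hz
  obtain ⟨⟨f, hf, hfv⟩, hCv⟩ := mem_CC.1 ⟨hC, hvC⟩
  have key : ∀ s : ℕ, s ∈ Finset.Icc t' t → ∃ z' ∈ sph w s, z' ∈ M.cells w t C := by
    intro s hs
    rw [Finset.mem_Icc] at hs
    have hsn : bx w s ⊆ bx w n := bx_mono w (hs.2.trans h)
    obtain ⟨f', hf', hc⟩ := M.exit w s w n ω z v f hsn (bx_mono w hs.1 hz) hvz hf hfv.symm
    obtain ⟨z', hz', hfz⟩ := M.lvl w s f' hf'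
    refine ⟨z', hz', M.mem_cells.2 ⟨bx_mono w hs.2 (mem_sph.1 hz').1, f', hfz, ?_⟩⟩
    rw [hCv]
    exact ⟨v, rfl, hc.mono (M.E_mono _ _ _ _ hsn) le_rfl⟩
  choose! g hg1 hg2 using key
  have hinj : Set.InjOn g (Finset.Icc t' t : Finset ℕ) := by
    intro s hs s' hs' hgs
    have h1 := mem_sph.1 (hg1 s hs)
    have h2 := mem_sph.1 (hg1 s' hs')
    rw [← hgs] at h2
    obtain ⟨a1, i, a2⟩ := h1
    obtain ⟨b1, j, b2⟩ := h2
    have c1 := mem_bx.1 b1 i
    have c2 := mem_bx.1 a1 j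
    rw [a2] at c1
    rw [b2] at c2
    have : s ≤ s' := by exact_mod_cast c1
    have : s' ≤ s := by exact_mod_cast c2
    omega
  have h3 : (Finset.Icc t' t).card ≤ (M.cells w t C).card :=
    Finset.card_le_card_of_injOn g (fun s hs => hg2 s hs) hinj
  rw [Nat.card_Icc] at h3
  omega

lemma mem_cB_of {w : Fin d → ℤ} {n : ℕ} {ω : ι → Bool} {C : Set V} (hC : C ∈ M.CL w n ω) {x : V}
    (hx : x ∈ C) : x ∈ M.cB w n ω ∧ C = cl M.N (M.E w n) ω {x} := mem_CC.1 ⟨hC, hx⟩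

/-- the interface inequality -/
lemma bdy_sum {w : Fin d → ℤ} {n t : ℕ} {ω : ι → Bool} (hω : ω ∈ M.Hall w n t) :
    ((∑ C ∈ M.CL w n ω, (bdy w t (M.cells w t C)).card : ℕ) : ℝ) ≤ 2 * M.NB w n t ω := by
  classical
  have h1 : ∀ C : Set V, (bdy w t (M.cells w t C)).card =
      ∑ z ∈ bx w t, ∑ i : Fin d, if (z + ev i ∈ bx w t ∧
        ((z ∈ M.cells w t C ∧ z + ev i ∉ M.cells w t C) ∨
          (z ∉ M.cells w t C ∧ z + ev i ∈ M.cells w t C))) then 1 else 0 := by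
    intro C
    unfold bdy
    rw [Finset.card_filter, Finset.sum_product]
  simp only [h1]
  rw [Finset.sum_comm]
  unfold NB
  push_cast
  rw [Finset.mul_sum]
  refine Finset.sum_le_sum fun z hz => ?_
  rw [Finset.sum_comm, Finset.mul_sum]
  refine Finset.sum_le_sum fun i _ => ?_
  set z' := z + ev i with hz'
  by_cases hzb : z' ∈ bx w t
  swap
  · have : ∀ C ∈ M.CL w n ω, (if (z' ∈ bx w t ∧ ((z ∈ M.cells w t C ∧ z' ∉ M.cells w t C) ∨
          (z ∉ M.cells w t C ∧ z' ∈ M.cells w t C))) then (1 : ℝ) else 0) = 0 := by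
      intro C _
      rw [if_neg]
      rintro ⟨h, _⟩
      exact hzb h
    rw [Finset.sum_congr rfl this, Finset.sum_const_zero]
    have : 0 ≤ ∑ x ∈ M.U z, ∑ y ∈ M.U z', I1 (M.BP w n x y) ω :=
      Finset.sum_nonneg fun x _ => Finset.sum_nonneg fun y _ => I1_nonneg _ _
    linarith
  -- both cells are in the box
  have hcount : ∀ (a b : Fin d → ℤ), a ∈ bx w t → b ∈ bx w t →
      (((M.CL w n ω).filter (fun C => a ∈ M.cells w t C ∧ b ∉ M.cells w t C)).card : ℝ) ≤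
      ∑ x ∈ M.U a, if (∃ y ∈ M.U b, ω ∈ M.BP w n x y) then (1 : ℝ) else 0 := by
    intro a b ha hb
    have h2 : ((M.CL w n ω).filter (fun C => a ∈ M.cells w t C ∧ b ∉ M.cells w t C)).card ≤
        ((M.U a).filter (fun x => ∃ y ∈ M.U b, ω ∈ M.BP w n x y)).card := by
      refine M.card_CL_le _ _ ?_
      rintro C hC ⟨hCa, hCb⟩
      rw [mem_cells] at hCa hCb
      obtain ⟨_, x, hxa, hxC⟩ := hCa
      obtain ⟨y, hyb, hyc⟩ := hω b hb
      have hx := M.mem_cB_of hC hxC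
      refine ⟨x, ?_, hxC⟩
      rw [Finset.mem_filter]
      refine ⟨hxa, y, hyb, hx.1, hyc, ?_⟩
      intro hcon
      refine hCb ⟨hb, y, hyb, ?_⟩
      rw [hx.2]
      exact ⟨x, rfl, hcon⟩
    rw [Finset.card_filter (fun x => ∃ y ∈ M.U b, ω ∈ M.BP w n x y)] at h2
    have h3 : ((∑ x ∈ M.U a, if (∃ y ∈ M.U b, ω ∈ M.BP w n x y) then 1 else 0 : ℕ) : ℝ) =
        ∑ x ∈ M.U a, if (∃ y ∈ M.U b, ω ∈ M.BP w n x y) then (1 : ℝ) else 0 := by
      push_cast; rfl
    rw [← h3]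
    exact_mod_cast h2
  have hsplit : ∑ C ∈ M.CL w n ω, (if (z' ∈ bx w t ∧ ((z ∈ M.cells w t C ∧ z' ∉ M.cells w t C) ∨
          (z ∉ M.cells w t C ∧ z' ∈ M.cells w t C))) then (1 : ℝ) else 0) ≤
      (((M.CL w n ω).filter (fun C => z ∈ M.cells w t C ∧ z' ∉ M.cells w t C)).card : ℝ) +
      (((M.CL w n ω).filter (fun C => z' ∈ M.cells w t C ∧ z ∉ M.cells w t C)).card : ℝ) := by
    rw [Finset.card_filter, Finset.card_filter]
    push_cast
    rw [← Finset.sum_add_distrib]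
    refine Finset.sum_le_sum fun C _ => ?_
    by_cases a1 : z ∈ M.cells w t C <;> by_cases a2 : z' ∈ M.cells w t C <;>
      simp [a1, a2, hzb]
  have hx1 : ∑ x ∈ M.U z, (if (∃ y ∈ M.U z', ω ∈ M.BP w n x y) then (1 : ℝ) else 0) ≤
      ∑ x ∈ M.U z, ∑ y ∈ M.U z', I1 (M.BP w n x y) ω := by
    refine Finset.sum_le_sum fun x _ => ?_
    split_ifs with h
    · obtain ⟨y, hy, hb⟩ := h
      have := Finset.single_le_sum (f := fun y => I1 (M.BP w n x y) ω)
        (fun y _ => I1_nonneg _ _) hy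
      simp only [I1_mem hb] at this
      exact this
    · exact Finset.sum_nonneg fun y _ => I1_nonneg _ _
  have hx2 : ∑ x ∈ M.U z', (if (∃ y ∈ M.U z, ω ∈ M.BP w n x y) then (1 : ℝ) else 0) ≤
      ∑ x ∈ M.U z, ∑ y ∈ M.U z', I1 (M.BP w n x y) ω := by
    rw [Finset.sum_comm]
    refine Finset.sum_le_sum fun x _ => ?_
    split_ifs with h
    · obtain ⟨y, hy, hb⟩ := h
      have hb' : ω ∈ M.BP w n y x := ⟨hb.2.1, hb.1, fun h => hb.2.2 h.symm⟩
      have := Finset.single_le_sum (f := fun y => I1 (M.BP w n y x) ω)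
        (fun y _ => I1_nonneg _ _) hy
      simp only [I1_mem hb'] at this
      exact this
    · exact Finset.sum_nonneg fun y _ => I1_nonneg _ _
  have e1 := hcount z z' hz hzb
  have e2 := hcount z' z hzb hz
  linarith

end Geo

end Pool.Agent.W870.PD
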