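import Pool.Agent.W804.HP.HLat

/-!
# Percolation seen at the scale of cells: definitions
-/

set_option autoImplicit false
set_option linter.all false

open MeasureTheory Set Pool.Agent.H978R2 Pool.Agent.W804.HP

namespace Pool.Agent.W870.PD

/-- deterministic data of a percolation model at the scale of cells: `E w m`, `F w m` are the
hyperedges and the boundary points of the domain which consists of the cells of the box
`bx w m`, `U z` are the points of the cell `z`, `T z` the hyperedges at the cell `z` -/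
structure Geo (d : ℕ) (ι V : Type) where
  N : ι → Set V
  E : (Fin d → ℤ) → ℕ → Finset ι
  F : (Fin d → ℤ) → ℕ → Finset V
  U : (Fin d → ℤ) → Finset V
  T : (Fin d → ℤ) → Finset ι
  q : ℕ
  E_mono : ∀ w m w' m', bx w m ⊆ bx w' m' → E w m ⊆ E w' m'
  exit : ∀ w m w' m' ω z u f, bx w m ⊆ bx w' m' → z ∈ bx w m → u ∈ U z → f ∈ F w' m' →
    Con N (E w' m') ω u f → ∃ f' ∈ F w m, Con N (E w m) ω u f'
  lvl : ∀ w m f, f ∈ F w m → ∃ z ∈ sph w m, f ∈ U z
  cov : ∀ w m i, i ∈ E w m → ∀ v ∈ N i, ∃ z ∈ bx w m, v ∈ U z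
  mem_T : ∀ w m i z v, i ∈ E w m → v ∈ N i → v ∈ U z → i ∈ T z
  card_U : ∀ z, (U z).card ≤ q
  card_T : ∀ z, (T z).card ≤ q
  card_E : ∀ w m, (E w m).card ≤ q * (2 * m + 1) ^ d
  card_F : ∀ w m, (F w m).card ≤ q * (2 * m + 1) ^ d
  ind : ∀ w w' (m : ℕ), (∃ i, 2 * (m : ℤ) < |w i - w' i|) → Disjoint (E w m) (E w' m)

/-- a model at the scale of cells with its probabilistic input; all constants are at most `q` -/
structure Cel (d : ℕ) (ι V : Type) (p : NNReal) (hp : p ≤ 1) extends Geo d ι V where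
  γ : ℕ
  q_pos : 2 ≤ q
  hγ : γ ≤ q
  hpq : (1 : ℝ) ≤ q * p
  card_γ : ∀ z, (E z γ).card ≤ q
  mul : ∀ i (S : Finset (Fin d → ℤ)), (∀ z ∈ S, i ∈ E z γ) → S.card ≤ q
  glu : ∀ z z', (z' = z ∨ ∃ i, z' = z + ev i) → ∀ x ∈ U z, ∀ y ∈ U z',
    (1 : ℝ) ≤ q * (bm ι p hp).real {ω | Con N (E z γ) ω x y}
  arm : ∀ w r i, γ < r → i ∈ E w γ →
    (bm ι p hp).real (TW N (E w r) (F w r) i) ≤ q / Real.sqrt ((r - γ : ℕ) : ℝ)

namespace Geo

variable {d : ℕ} {ι V : Type} (M : Geo d ι V)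

/-- the set `C` touches the cell `z` -/
def tc (C : Set V) (z : Fin d → ℤ) : Prop := ∃ v ∈ M.U z, v ∈ C

open Classical in
/-- the cells of the box touched by `C` -/
noncomputable def cells (w : Fin d → ℤ) (t : ℕ) (C : Set V) : Finset (Fin d → ℤ) :=
  (bx w t).filter (fun z => M.tc C z)

/-- the union of the clusters meeting the boundary of the domain -/
def cB (w : Fin d → ℤ) (n : ℕ) (ω : ι → Bool) : Set V := cl M.N (M.E w n) ω (M.F w n : Set V)

/-- clusters meeting the boundary of the domain -/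
noncomputable def CL (w : Fin d → ℤ) (n : ℕ) (ω : ι → Bool) : Finset (Set V) :=
  CC M.N (M.E w n) ω (M.F w n)

/-- all the cells of the box of radius `t` are touched by `cB` -/
def Hall (w : Fin d → ℤ) (n t : ℕ) : Set (ι → Bool) :=
  {ω | ∀ z ∈ bx w t, M.tc (M.cB w n ω) z}

/-- bad pair: two points which reach the boundary of the domain but are not connected -/
def BP (w : Fin d → ℤ) (n : ℕ) (x y : V) : Set (ι → Bool) :=
  {ω | x ∈ M.cB w n ω ∧ y ∈ M.cB w n ω ∧ ¬ Con M.N (M.E w n) ω x y}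

/-- the number of bad pairs in neighbouring cells -/
noncomputable def NB (w : Fin d → ℤ) (n t : ℕ) (ω : ι → Bool) : ℝ :=
  ∑ z ∈ bx w t, ∑ i : Fin d, ∑ x ∈ M.U z, ∑ y ∈ M.U (z + ev i), I1 (M.BP w n x y) ω

/-- sum of the square roots of the volumes of the clusters -/
noncomputable def SV (w : Fin d → ℤ) (n t : ℕ) (ω : ι → Bool) : ℝ :=
  ∑ C ∈ M.CL w n ω, Real.sqrt ((M.cells w t C).card : ℝ)

/-- the number of hyperedges of the box of radius `t` touching two clusters which meet the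
boundary of the domain -/
noncomputable def NT (w : Fin d → ℤ) (n t : ℕ) (ω : ι → Bool) : ℝ :=
  ∑ i ∈ M.E w t, I1 (TW M.N (M.E w n) (M.F w n : Set V) i) ω

/-- `f` is a boundary point whose cluster touches at least 7/8 of the cells of the box of
radius `t` -/
def dom (w : Fin d → ℤ) (n t : ℕ) (ω : ι → Bool) (f : V) : Prop :=
  f ∈ M.F w n ∧ 7 * (2 * t + 1) ^ d ≤ 8 * (M.cells w t (cl M.N (M.E w n) ω {f})).card

/-- there is a dominating cluster -/
def Dom (w : Fin d → ℤ) (n t : ℕ) : Set (ι → Bool) := {ω | ∃ f, M.dom w n t ω f}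

/-- `z` is a cell with a bad pair (in the domain of radius `n`) -/
def bc (w : Fin d → ℤ) (n : ℕ) (ω : ι → Bool) (z : Fin d → ℤ) : Prop :=
  ∃ x ∈ M.U z, ∃ y ∈ M.U z, ω ∈ M.BP w n x y

open Classical in
/-- less than a quarter of the cells of the box are bad -/
def Mt (w : Fin d → ℤ) (n t : ℕ) : Set (ι → Bool) :=
  {ω | 4 * ((bx w t).filter (fun z => M.bc w n ω z)).card < (2 * t + 1) ^ d}

/-- the centres of the boxes of the renormalised lattice: the `j`-th box on the way from the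
coarse site `u` to its neighbour in direction `b` -/
def ctr (t : ℕ) (u : ℤ × ℤ) (b : Bool) (j : ℕ) : Fin d → ℤ := fun i =>
  if i.val = 0 then 8 * t * u.1 + (if b then 0 else t * j)
  else if i.val = 1 then 8 * t * u.2 + (if b then t * j else 0)
  else 0

/-- the coarse site `u` is good -/
def Good (t : ℕ) (u : ℤ × ℤ) : Set (ι → Bool) :=
  {ω | ∀ b : Bool, ∀ j ≤ 8, ω ∈ M.Dom (ctr t u b j) (4 * t) t ∧ ω ∈ M.Mt (ctr t u b j) (3 * t) t}

end Geo

/-- edge boundary (in the box) of a set of cells -/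
noncomputable def bdy {d : ℕ} (w : Fin d → ℤ) (t : ℕ) (A : Finset (Fin d → ℤ)) : Finset ((Fin d → ℤ) × Fin d) :=
  ((bx w t) ×ˢ (Finset.univ : Finset (Fin d))).filter (fun e => e.1 + ev e.2 ∈ bx w t ∧
    ((e.1 ∈ A ∧ e.1 + ev e.2 ∉ A) ∨ (e.1 ∉ A ∧ e.1 + ev e.2 ∈ A)))

open Classical in
/-- the hyperedges of `E ∩ R` which touch `S` -/
noncomputable def NR {ι V : Type} (N : ι → Set V) (E R : Finset ι) (S : Set V) : Finset ι :=
  (E ∩ R).filter (fun i => tch N i S)

end Pool.Agent.W870.PD
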