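import Pool.Agent.W870.PD.Rec

set_option autoImplicit false
set_option linter.all false

open MeasureTheory Set Pool.Agent.H978R2 Pool.Agent.W804.HP

namespace Pool.Agent.W870.PD

namespace Cel

variable {d : ℕ} {ι V : Type} {p : NNReal} {hp : p ≤ 1} (M : Cel d ι V p hp)

lemma dep_Dom (w : Fin d → ℤ) (n t : ℕ) : DepOn (M.E w n : Set ι) (M.Dom w n t) := by
  intro ω ω' h
  unfold Geo.Dom Geo.dom
  simp only [mem_setOf_eq]
  have h1 : ∀ f : V, cl M.N (M.E w n) ω {f} = cl M.N (M.E w n) ω' {f} := fun f =>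
    cl_congr (fun i hi => h i hi) _
  simp only [h1]

lemma dep_Mt (w : Fin d → ℤ) (n t : ℕ) : DepOn (M.E w n : Set ι) (M.Mt w n t) := by
  classical
  intro ω ω' h
  have h1 : ∀ z, M.bc w n ω z ↔ M.bc w n ω' z := by
    intro z
    unfold Geo.bc
    refine exists_congr fun x => and_congr_right fun _ => exists_congr fun y =>
      and_congr_right fun _ => ?_
    exact M.dep_BP w n x y ω ω' h
  have h2 : (bx w t).filter (fun z => M.bc w n ω z) = (bx w t).filter (fun z => M.bc w n ω' z) :=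
    Finset.filter_congr fun z _ => h1 z
  unfold Geo.Mt
  simp only [mem_setOf_eq]
  constructor
  · intro h4
    convert h4 using 3
    exact h2.symm
  · intro h4
    convert h4 using 3

/-- probability that no cluster dominates -/
lemma dom_prob (hI : S_iso2) (hd : 1 ≤ d) (w : Fin d → ℤ) (n t : ℕ) :
    (bm ι p hp).real (M.Dom w n t)ᶜ ≤ (bm ι p hp).real (M.Hall w n t)ᶜ +
      16 / (2 * (t : ℝ) + 1) ^ (d - 1) * EE (M.E w n) p (M.NB w n t) := by
  have hL : (0 : ℝ) < (2 * (t : ℝ) + 1) ^ (d - 1) := by positivity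
  have h1 := EE_mono (E := M.E w n) (p := (p : ℝ)) p.2 (by exact_mod_cast hp)
    (f := I1 (M.Dom w n t)ᶜ) (g := fun ω => I1 (M.Hall w n t)ᶜ ω +
      16 / (2 * (t : ℝ) + 1) ^ (d - 1) * M.NB w n t ω) fun ω => by
      have hNB : 0 ≤ M.NB w n t ω := by
        unfold Geo.NB
        exact Finset.sum_nonneg fun z _ => Finset.sum_nonneg fun i _ => Finset.sum_nonneg fun x _ =>
          Finset.sum_nonneg fun y _ => I1_nonneg _ _
      by_cases hD : ω ∈ M.Dom w n t
      · rw [I1_not (show ω ∉ (M.Dom w n t)ᶜ from fun h => h hD)]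
        have := I1_nonneg (M.Hall w n t)ᶜ ω
        positivity
      · rw [I1_mem (show ω ∈ (M.Dom w n t)ᶜ from hD)]
        by_cases hH : ω ∈ M.Hall w n t
        · have h2 := M.NB_ge hI hd hH hD
          rw [I1_not (show ω ∉ (M.Hall w n t)ᶜ from fun h => h hH), zero_add,
            div_mul_eq_mul_div, le_div_iff₀ hL]
          linarith
        · rw [I1_mem (show ω ∈ (M.Hall w n t)ᶜ from hH)]
          have : 0 ≤ 16 / (2 * (t : ℝ) + 1) ^ (d - 1) * M.NB w n t ω := by positivity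
          linarith
  rw [EE_add, EE_mul] at h1
  rw [bm_real_eq_EE p hp (M.dep_Dom w n t).compl, bm_real_eq_EE p hp (M.dep_Hall w n t).compl]
  exact h1

/-- the two-cluster event is decreasing in the domain -/
lemma TW_anti {z w : Fin d → ℤ} {r n : ℕ} {j : ι} (h : bx z r ⊆ bx w n) (hj : j ∈ M.E z r) :
    TW M.N (M.E w n) (M.F w n : Set V) j ⊆ TW M.N (M.E z r) (M.F z r : Set V) j := by
  rintro ω ⟨x, hx, y, hy, ⟨f, hf, h1⟩, ⟨g, hg, h2⟩, h3⟩
  obtain ⟨a, ha, hxa⟩ := M.cov z r j hj x hx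
  obtain ⟨b, hb, hyb⟩ := M.cov z r j hj y hy
  obtain ⟨f', hf', h1'⟩ := M.exit z r w n ω a x f h ha hxa hf h1.symm
  obtain ⟨g', hg', h2'⟩ := M.exit z r w n ω b y g h hb hyb hg h2.symm
  exact ⟨x, hx, y, hy, ⟨f', hf', h1'.symm⟩, ⟨g', hg', h2'.symm⟩,
    fun h4 => h3 (h4.mono (M.E_mono _ _ _ _ h) le_rfl)⟩

/-- a priori bound for bad pairs in one cell -/
lemma BP_apriori {w z : Fin d → ℤ} {n t : ℕ} (hz : z ∈ bx w t) (hn : t + M.γ < n) {x y : V}
    (hx : x ∈ M.U z) (hy : y ∈ M.U z) :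
    (bm ι p hp).real (M.BP w n x y) ≤ (M.q : ℝ) ^ 3 / Real.sqrt ((n - t - M.γ : ℕ) : ℝ) := by
  have hq := M.q_pos'
  have hsub : ∀ r : ℕ, t + r ≤ n → bx z r ⊆ bx w n := by
    intro r hr
    refine bx_subset fun i => ?_
    have h3 := mem_bx.1 hz i
    have h4 : ((t + r : ℕ) : ℤ) ≤ n := by exact_mod_cast hr
    push_cast at h4
    linarith
  have h1 := M.BP_le (Or.inl rfl) (hsub M.γ (by omega)) hx hy
  have h2 : ∀ j ∈ M.E z M.γ, (bm ι p hp).real (TW M.N (M.E w n) (M.F w n : Set V) j) ≤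
      M.q / Real.sqrt ((n - t - M.γ : ℕ) : ℝ) := by
    intro j hj
    have hj' : j ∈ M.E z (n - t) := M.E_mono _ _ _ _ (bx_mono z (by omega)) hj
    have h3 := M.TW_anti (hsub (n - t) (by omega)) hj'
    exact (measureReal_mono h3 (measure_ne_top _ _)).trans (M.arm z (n - t) j (by omega) hj)
  have h3 := Finset.sum_le_card_nsmul _ _ _ h2
  rw [nsmul_eq_mul] at h3
  have h4 : ((M.E z M.γ).card : ℝ) ≤ M.q := by exact_mod_cast M.card_γ z
  have hs : 0 ≤ (M.q : ℝ) / Real.sqrt ((n - t - M.γ : ℕ) : ℝ) := by positivity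
  have h5 := mul_le_mul_of_nonneg_right h4 hs
  have h6 := mul_le_mul_of_nonneg_left (h3.trans h5) hq.le
  refine h1.trans (h6.trans (le_of_eq ?_))
  ring

/-- probability that many cells are bad -/
lemma mt_prob (w : Fin d → ℤ) {n t : ℕ} (hn : t + M.γ < n) :
    (bm ι p hp).real (M.Mt w n t)ᶜ ≤ 4 * (M.q : ℝ) ^ 5 / Real.sqrt ((n - t - M.γ : ℕ) : ℝ) := by
  classical
  have hq := M.q_pos'
  set s := Real.sqrt ((n - t - M.γ : ℕ) : ℝ) with hs
  have hL : (0 : ℝ) < (2 * (t : ℝ) + 1) ^ d := by positivity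
  -- one cell
  have h1 : ∀ z ∈ bx w t, EE (M.E w n) p (I1 {ω | M.bc w n ω z}) ≤ (M.q : ℝ) ^ 5 / s := by
    intro z hz
    have h2 : {ω | M.bc w n ω z} ⊆ ⋃ x ∈ M.U z, ⋃ y ∈ M.U z, M.BP w n x y := by
      rintro ω ⟨x, hx, y, hy, h⟩
      simp only [mem_iUnion, exists_prop]
      exact ⟨x, hx, y, hy, h⟩
    have h3 := EE_I1_mono (E := M.E w n) (p := (p : ℝ)) p.2 (by exact_mod_cast hp) h2
    have h4 := EE_I1_iUnion_le (E := M.E w n) (p := (p : ℝ)) p.2 (by exact_mod_cast hp) (M.U z)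
      (fun x => ⋃ y ∈ M.U z, M.BP w n x y)
    have h5 : ∀ x ∈ M.U z, EE (M.E w n) p (I1 (⋃ y ∈ M.U z, M.BP w n x y)) ≤ (M.q : ℝ) ^ 4 / s := by
      intro x hx
      have h6 := EE_I1_iUnion_le (E := M.E w n) (p := (p : ℝ)) p.2 (by exact_mod_cast hp) (M.U z)
        (fun y => M.BP w n x y)
      have h7 : ∀ y ∈ M.U z, EE (M.E w n) p (I1 (M.BP w n x y)) ≤ (M.q : ℝ) ^ 3 / s := by
        intro y hy
        rw [← bm_real_eq_EE p hp (M.dep_BP w n x y)]
        exact M.BP_apriori hz hn hx hy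
      have h8 := Finset.sum_le_card_nsmul _ _ _ h7
      rw [nsmul_eq_mul] at h8
      have h9 : ((M.U z).card : ℝ) ≤ M.q := by exact_mod_cast M.card_U z
      have h10 := mul_le_mul_of_nonneg_right h9 (by positivity : 0 ≤ (M.q : ℝ) ^ 3 / s)
      refine h6.trans (h8.trans (h10.trans (le_of_eq (by ring))))
    have h6 := Finset.sum_le_card_nsmul _ _ _ h5
    rw [nsmul_eq_mul] at h6
    have h9 : ((M.U z).card : ℝ) ≤ M.q := by exact_mod_cast M.card_U z
    have h10 := mul_le_mul_of_nonneg_right h9 (by positivity : 0 ≤ (M.q : ℝ) ^ 4 / s)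
    refine h3.trans (h4.trans (h6.trans (h10.trans (le_of_eq (by ring)))))
  -- Markov
  have h2 := EE_mono (E := M.E w n) (p := (p : ℝ)) p.2 (by exact_mod_cast hp)
    (f := fun ω => (2 * (t : ℝ) + 1) ^ d * I1 (M.Mt w n t)ᶜ ω)
    (g := fun ω => 4 * ∑ z ∈ bx w t, I1 {ω | M.bc w n ω z} ω) fun ω => by
      by_cases hM : ω ∈ M.Mt w n t
      · rw [I1_not (show ω ∉ (M.Mt w n t)ᶜ from fun h => h hM), mul_zero]
        have : 0 ≤ ∑ z ∈ bx w t, I1 {ω | M.bc w n ω z} ω :=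
          Finset.sum_nonneg fun z _ => I1_nonneg _ _
        linarith
      · rw [I1_mem (show ω ∈ (M.Mt w n t)ᶜ from hM), mul_one]
        have h3 : (2 * t + 1) ^ d ≤ 4 * ((bx w t).filter (fun z => M.bc w n ω z)).card := by
          by_contra hcon
          push Not at hcon
          apply hM
          unfold Geo.Mt
          simp only [mem_setOf_eq]
          convert hcon using 3
        have h4 : (((bx w t).filter (fun z => M.bc w n ω z)).card : ℝ) =
            ∑ z ∈ bx w t, I1 {ω | M.bc w n ω z} ω := by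
          rw [Finset.card_filter]
          push_cast
          refine Finset.sum_congr rfl fun z _ => ?_
          by_cases hb : M.bc w n ω z
          · rw [if_pos hb, I1_mem (show ω ∈ {ω | M.bc w n ω z} from hb)]
          · rw [if_neg hb, I1_not (show ω ∉ {ω | M.bc w n ω z} from hb)]
        rw [← h4]
        exact_mod_cast h3
  rw [EE_mul, EE_mul, EE_sum] at h2
  have h3 := Finset.sum_le_card_nsmul _ _ _ h1
  rw [card_bx, nsmul_eq_mul] at h3
  push_cast at h3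
  rw [bm_real_eq_EE p hp (M.dep_Mt w n t).compl]
  have h4 : (2 * (t : ℝ) + 1) ^ d * EE (M.E w n) p (I1 (M.Mt w n t)ᶜ) ≤
      (2 * (t : ℝ) + 1) ^ d * (4 * (M.q : ℝ) ^ 5 / s) := by
    calc _ ≤ 4 * ∑ z ∈ bx w t, EE (M.E w n) p (I1 {ω | M.bc w n ω z}) := h2
      _ ≤ 4 * ((2 * (t : ℝ) + 1) ^ d * ((M.q : ℝ) ^ 5 / s)) := by linarith
      _ = _ := by ring
  exact le_of_mul_le_mul_left h4 hL

/-- all the cells are reached with high probability -/
lemma hall_prob (w : Fin d → ℤ) {n t m : ℕ} {ε : ℝ} (hm : n + t ≤ m) (ht : t ≤ n)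
    (hv : ∀ z : Fin d → ℤ, (bm ι p hp).real {ω | ∀ x ∈ M.U z, x ∉ M.cB z m ω} ≤ ε) :
    (bm ι p hp).real (M.Hall w n t)ᶜ ≤ (2 * (t : ℝ) + 1) ^ d * ε := by
  have h1 : (M.Hall w n t)ᶜ ⊆ ⋃ z ∈ bx w t, {ω | ∀ x ∈ M.U z, x ∉ M.cB z m ω} := by
    intro ω hω
    have hω' : ¬ ∀ z ∈ bx w t, M.tc (M.cB w n ω) z := hω
    push Not at hω'
    obtain ⟨z, hz, hnt⟩ := hω'
    simp only [mem_iUnion, exists_prop]
    refine ⟨z, hz, ?_⟩
    intro x hx hxc
    obtain ⟨f, hf, hc⟩ := hxc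
    have hsub : bx w n ⊆ bx z m := by
      refine bx_subset fun i => ?_
      have h3 := mem_bx.1 hz i
      rw [abs_sub_comm] at h3
      have h4 : ((n + t : ℕ) : ℤ) ≤ m := by exact_mod_cast hm
      push_cast at h4
      linarith
    obtain ⟨f', hf', hc'⟩ := M.exit w n z m ω z x f hsub (bx_mono w ht hz) hx hf hc.symm
    exact hnt ⟨x, hx, f', hf', hc'.symm⟩
  refine (measureReal_mono h1 (measure_ne_top _ _)).trans ?_
  refine (measureReal_biUnion_finset_le _ _).trans ?_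
  refine (Finset.sum_le_card_nsmul _ _ _ fun z _ => hv z).trans ?_
  rw [card_bx, nsmul_eq_mul]
  push_cast
  exact le_rfl

end Cel

end Pool.Agent.W870.PD
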