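import Pool.Agent.W870.PD.Stmts2

set_option autoImplicit false
set_option linter.all false

open MeasureTheory Set Pool.Agent.H978R2 Pool.Agent.W804.HP

namespace Pool.Agent.W870.PD

lemma exists_pow_ge (k0 : ℕ) : ∃ m : ℕ, 1 ≤ m ∧ ∀ k : ℕ, 2 ≤ k → k0 ≤ k ^ m := by
  refine ⟨k0 + 1, by omega, fun k hk => ?_⟩
  have h1 : k0 + 1 < 2 ^ (k0 + 1) := Nat.lt_two_pow_self
  have h2 : 2 ^ (k0 + 1) ≤ k ^ (k0 + 1) := Nat.pow_le_pow_left hk _
  omega

lemma exists_sph (d : ℕ) (hd : 1 ≤ d) (n : ℕ) : ∃ y : Fin d → ℤ, y ∈ sph (0 : Fin d → ℤ) n := by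
  refine ⟨fun _ => n, ?_⟩
  rw [mem_sph, mem_bx]
  refine ⟨fun i => by simp, ⟨0, by omega⟩, by simp⟩

lemma voidB_one (d : ℕ) (hd : 1 ≤ d) (k : ℕ) (hk : 1 ≤ k) : VoidB d k 1 = ∅ := by
  ext ω
  simp only [mem_empty_iff_false, iff_false]
  intro h
  obtain ⟨y, hy⟩ := exists_sph d hd 1
  exact h y (bx_mono 0 hk (mem_sph.1 hy).1) y hy (SimpleGraph.Reachable.refl _)

lemma voidB_mono {d k K n n' : ℕ} (hk : k ≤ K) (hKn : k ≤ n) (hn : n ≤ n') :
    VoidB d K n ⊆ VoidB d k n' := by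
  intro ω hω x hx y hy hr
  rw [← con_bond] at hr
  obtain ⟨f, hf, hc⟩ := bond_exit 0 n 0 n' ω x y (bx_mono 0 hn) (bx_mono 0 hKn hx) hy hr
  rw [con_bond] at hc
  exact hω x (bx_mono 0 hk hx) f hf hc

theorem finalB (h : S_finB) (d : ℕ) (hd : 3 ≤ d) (p : NNReal) (hp : p ≤ 1) (hp0 : 0 < p)
    (hpol : PolB d p hp)
    (hcrit : ∀ (p' : NNReal) (hp' : p' ≤ 1), p' < p →
      (bm _ p' hp').real (InfB (0 : Fin d → ℤ)) = 0) :
    ∃ C : ℕ, 1 ≤ C ∧ ∀ k : ℕ, 2 ≤ k →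
      1 / (k : ℝ) ^ C ≤ (bm _ p hp).real (VoidB d k (k ^ C)) := by
  obtain ⟨C0, k0, h0⟩ := h d p hp hd hp0 hpol
  obtain ⟨m, hm, hk0⟩ := exists_pow_ge k0
  have key : ∀ k : ℕ, k0 ≤ k → 1 / (k : ℝ) ^ C0 ≤ (bm _ p hp).real (VoidB d k (k ^ C0)) := by
    intro k hk
    by_contra hcon
    push Not at hcon
    obtain ⟨p', hp', hlt, hpos⟩ := h0 k hk hcon
    rw [hcrit p' hp' hlt] at hpos
    exact lt_irrefl _ hpos
  have hC0 : 1 ≤ C0 := by
    by_contra hcon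
    have hc : C0 = 0 := by omega
    subst hc
    have h1 := key (k0 + 1) (by omega)
    rw [pow_zero, pow_zero, voidB_one d (by omega) _ (by omega)] at h1
    simp at h1
    linarith
  refine ⟨m * C0, by nlinarith, fun k hk => ?_⟩
  have h1 := key (k ^ m) (hk0 k hk)
  have hkm : k ≤ k ^ m := Nat.le_self_pow (by omega) k
  have e1 : ((k ^ m : ℕ) : ℝ) ^ C0 = (k : ℝ) ^ (m * C0) := by
    push_cast; rw [← pow_mul]
  have e2 : (k ^ m) ^ C0 = k ^ (m * C0) := by rw [← pow_mul]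
  rw [e1, e2] at h1
  refine h1.trans (measureReal_mono (voidB_mono hkm ?_ le_rfl) (measure_ne_top _ _))
  refine hkm.trans (Nat.pow_le_pow_right (by omega) ?_)
  nlinarith

lemma voidS_mono {d k K n n' : ℕ} (hk : k ≤ K) (hKn : k ≤ n) (hn : n ≤ n') :
    VoidS d K n ⊆ VoidS d k n' := by
  intro ω hω x hx y hy hr
  obtain ⟨hox, hoy, hr⟩ := hr
  have key : ∀ v, Relation.ReflTransGen (openS ω (bx (0 : Fin d → ℤ) n')).Adj x v →
      (v ∈ bx (0 : Fin d → ℤ) n ∧ ω v = true ∧ (openS ω (bx (0 : Fin d → ℤ) n)).Reachable x v) ∨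
      ∃ f ∈ sph (0 : Fin d → ℤ) n, ω f = true ∧ (openS ω (bx (0 : Fin d → ℤ) n)).Reachable x f := by
    intro v hv
    induction hv with
    | refl => exact Or.inl ⟨bx_mono 0 hKn hx, hox, SimpleGraph.Reachable.refl _⟩
    | @tail b c _ hbc ih =>
      rcases ih with ⟨hb, hob, hcon⟩ | ih
      · by_cases hs : b ∈ sph (0 : Fin d → ℤ) n
        · exact Or.inr ⟨b, hs, hob, hcon⟩
        · obtain ⟨h1, _, _, h4, h5⟩ := hbc
          have hc := adj_mem_bx h1 hb hs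
          exact Or.inl ⟨hc, h5, hcon.trans (SimpleGraph.Adj.reachable ⟨h1, hb, hc, h4, h5⟩)⟩
      · exact Or.inr ih
  rw [reach_rtg] at hr
  rcases key y hr with ⟨h1, h2, h3⟩ | ⟨f, hf, hof, h3⟩
  · exact hω x (bx_mono 0 hk hx) y (sph_of_subset (bx_mono 0 hn) h1 hy) ⟨hox, hoy, h3⟩
  · exact hω x (bx_mono 0 hk hx) f hf ⟨hox, hof, h3⟩

theorem finalS (h : S_finS) (d : ℕ) (hd : 3 ≤ d) (p : NNReal) (hp : p ≤ 1) (hp0 : 0 < p)
    (hpol : PolS d p hp)
    (hcrit : ∀ (p' : NNReal) (hp' : p' ≤ 1), p' < p →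
      (bm _ p' hp').real (InfS (0 : Fin d → ℤ)) = 0) :
    ∃ C : ℕ, 1 ≤ C ∧ ∀ k : ℕ, 2 ≤ k →
      1 / (k : ℝ) ^ C ≤ (bm _ p hp).real (VoidS d k (k ^ C)) := by
  obtain ⟨C0, k0, h0⟩ := h d p hp hd hp0 hpol
  obtain ⟨m, hm, hk0⟩ := exists_pow_ge k0
  have key : ∀ k : ℕ, k0 ≤ k → 1 / (k : ℝ) ^ C0 ≤ (bm _ p hp).real (VoidS d k (k ^ C0)) := by
    intro k hk
    by_contra hcon
    push Not at hcon
    obtain ⟨p', hp', hlt, hpos⟩ := h0 k hk hcon
    rw [hcrit p' hp' hlt] at hpos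
    exact lt_irrefl _ hpos
  have hC0 : 1 ≤ C0 := by
    by_contra hcon
    have hc : C0 = 0 := by omega
    subst hc
    have h1 := key (k0 + 1) (by omega)
    rw [pow_zero, pow_zero] at h1
    obtain ⟨y, hy⟩ := exists_sph d (by omega) 1
    -- the void event is contained in `y` closed
    have hsub : VoidS d (k0 + 1) 1 ⊆ {ω : (Fin d → ℤ) → Bool | ω y = false} := by
      intro ω hω
      by_contra hoy
      have hoy' : ω y = true := by simpa using hoy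
      exact hω y (bx_mono 0 (by omega) (mem_sph.1 hy).1) y hy ⟨hoy', hoy', SimpleGraph.Reachable.refl _⟩
    have h2 := measureReal_mono (μ := bm _ p hp) hsub (measure_ne_top _ _)
    have h3 : (bm _ p hp).real {ω : (Fin d → ℤ) → Bool | ω y = false} < 1 := by
      have hm : MeasurableSet {ω : (Fin d → ℤ) → Bool | ω y = true} := meas_coord y true
      have h4 : {ω : (Fin d → ℤ) → Bool | ω y = false} = {ω | ω y = true}ᶜ := by
        ext ω; simp
      rw [h4, probReal_compl_eq_one_sub hm]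
      have h5 : (bm _ p hp).real {ω : (Fin d → ℤ) → Bool | ω y = true} = p := by
        unfold Measure.real
        rw [bm_eval p hp y true]
        simp
      rw [h5]
      have : (0 : ℝ) < p := by exact_mod_cast hp0
      linarith
    simp at h1
    linarith
  refine ⟨m * C0, by nlinarith, fun k hk => ?_⟩
  have h1 := key (k ^ m) (hk0 k hk)
  have hkm : k ≤ k ^ m := Nat.le_self_pow (by omega) k
  have e1 : ((k ^ m : ℕ) : ℝ) ^ C0 = (k : ℝ) ^ (m * C0) := by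
    push_cast; rw [← pow_mul]
  have e2 : (k ^ m) ^ C0 = k ^ (m * C0) := by rw [← pow_mul]
  rw [e1, e2] at h1
  refine h1.trans (measureReal_mono (voidS_mono hkm ?_ le_rfl) (measure_ne_top _ _))
  refine hkm.trans (Nat.pow_le_pow_right (by omega) ?_)
  nlinarith

end Pool.Agent.W870.PD
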