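import Pool.Agent.W870.PD.Basic

set_option autoImplicit false
set_option linter.all false

open MeasureTheory Set Pool.Agent.H978R2 Pool.Agent.W804.HP

namespace Pool.Agent.W870.PD

namespace Cel

variable {d : ℕ} {ι V : Type} {p : NNReal} {hp : p ≤ 1} (M : Cel d ι V p hp)

lemma dep_BP (w : Fin d → ℤ) (n : ℕ) (x y : V) : DepOn (M.E w n : Set ι) (M.BP w n x y) := by
  intro ω ω' h
  unfold Geo.BP Geo.cB
  simp only [mem_setOf_eq]
  rw [cl_congr (fun i hi => h i hi), con_congr (fun i hi => h i hi)]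

/-- bad pairs are created by hyperedges touching two clusters -/
lemma BP_le {w z z' : Fin d → ℤ} {n : ℕ} (hz : z' = z ∨ ∃ i, z' = z + ev i)
    (hsub : bx z M.γ ⊆ bx w n) {x y : V} (hx : x ∈ M.U z) (hy : y ∈ M.U z') :
    (bm ι p hp).real (M.BP w n x y) ≤ M.q * ∑ j ∈ M.E z M.γ,
      (bm ι p hp).real (TW M.N (M.E w n) (M.F w n : Set V) j) := by
  classical
  have h1 := glue M.N p hp (M.F w n : Set V) x y (M.E_mono _ _ _ _ hsub)
  have h2 := M.glu z z' hz x hx y hy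
  have e : {ω | x ∈ cl M.N (M.E w n) ω (M.F w n : Set V) ∧ y ∈ cl M.N (M.E w n) ω (M.F w n : Set V) ∧
      ¬ Con M.N (M.E w n) ω x y} = M.BP w n x y := rfl
  rw [e] at h1
  have h3 : 0 ≤ (bm ι p hp).real (M.BP w n x y) := measureReal_nonneg
  have h4 := mul_le_mul_of_nonneg_right h2 h3
  have h5 := mul_le_mul_of_nonneg_left h1 (Nat.cast_nonneg (α := ℝ) M.q)
  calc (bm ι p hp).real (M.BP w n x y) = 1 * (bm ι p hp).real (M.BP w n x y) := by ring
    _ ≤ M.q * (bm ι p hp).real {ω | Con M.N (M.E z M.γ) ω x y} *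
        (bm ι p hp).real (M.BP w n x y) := h4
    _ = M.q * ((bm ι p hp).real {ω | Con M.N (M.E z M.γ) ω x y} *
        (bm ι p hp).real (M.BP w n x y)) := by ring
    _ ≤ _ := h5

lemma EE_NT (w : Fin d → ℤ) (n t : ℕ) : EE (M.E w n) p (M.NT w n t) =
    ∑ j ∈ M.E w t, (bm ι p hp).real (TW M.N (M.E w n) (M.F w n : Set V) j) := by
  unfold Geo.NT
  rw [EE_sum]
  refine Finset.sum_congr rfl fun j _ => ?_
  rw [bm_real_eq_EE p hp (depOn_TW _ _ _ _)]

lemma sum_mul {w : Fin d → ℤ} {t : ℕ} (f : ι → ℝ) (hf : ∀ i, 0 ≤ f i) :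
    ∑ z ∈ bx w t, ∑ j ∈ M.E z M.γ, f j ≤ M.q * ∑ j ∈ M.E w (t + M.γ), f j := by
  classical
  have h1 : ∀ z ∈ bx w t, ∑ j ∈ M.E z M.γ, f j =
      ∑ j ∈ M.E w (t + M.γ), if j ∈ M.E z M.γ then f j else 0 := by
    intro z hz
    have hsub : M.E z M.γ ⊆ M.E w (t + M.γ) := by
      refine M.E_mono _ _ _ _ (bx_subset fun i => ?_)
      have := mem_bx.1 hz i
      push_cast
      linarith
    rw [← Finset.sum_filter, Finset.filter_mem_eq_inter, Finset.inter_eq_right.2 hsub]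
  rw [Finset.sum_congr rfl h1, Finset.sum_comm, Finset.mul_sum]
  refine Finset.sum_le_sum fun j _ => ?_
  rw [← Finset.sum_filter, Finset.sum_const, nsmul_eq_mul]
  refine mul_le_mul_of_nonneg_right ?_ (hf j)
  have := M.mul j ((bx w t).filter (fun z => j ∈ M.E z M.γ)) fun z hz => (Finset.mem_filter.1 hz).2
  exact_mod_cast this

/-- expected number of bad pairs -/
lemma EE_NB_le (w : Fin d → ℤ) {n t : ℕ} (h : t + M.γ ≤ n) :
    EE (M.E w n) p (M.NB w n t) ≤ d * (M.q : ℝ) ^ 4 * EE (M.E w n) p (M.NT w n (t + M.γ)) := by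
  classical
  rw [EE_NT]
  set f : ι → ℝ := fun j => (bm ι p hp).real (TW M.N (M.E w n) (M.F w n : Set V) j) with hf
  have hf0 : ∀ j, 0 ≤ f j := fun j => measureReal_nonneg
  have h1 : EE (M.E w n) p (M.NB w n t) = ∑ z ∈ bx w t, ∑ i : Fin d, ∑ x ∈ M.U z,
      ∑ y ∈ M.U (z + ev i), (bm ι p hp).real (M.BP w n x y) := by
    unfold Geo.NB
    rw [EE_sum]
    refine Finset.sum_congr rfl fun z _ => ?_
    rw [EE_sum]
    refine Finset.sum_congr rfl fun i _ => ?_
    rw [EE_sum]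
    refine Finset.sum_congr rfl fun x _ => ?_
    rw [EE_sum]
    refine Finset.sum_congr rfl fun y _ => ?_
    rw [bm_real_eq_EE p hp (M.dep_BP w n x y)]
  rw [h1]
  have h2 : ∀ z ∈ bx w t, ∑ i : Fin d, ∑ x ∈ M.U z, ∑ y ∈ M.U (z + ev i),
      (bm ι p hp).real (M.BP w n x y) ≤ d * (M.q : ℝ) ^ 3 * ∑ j ∈ M.E z M.γ, f j := by
    intro z hz
    have hsub : bx z M.γ ⊆ bx w n := by
      refine bx_subset fun i => ?_
      have h3 := mem_bx.1 hz i
      have h4 : ((t + M.γ : ℕ) : ℤ) ≤ n := by exact_mod_cast h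
      push_cast at h4
      linarith
    have hS : 0 ≤ ∑ j ∈ M.E z M.γ, f j := Finset.sum_nonneg fun j _ => hf0 j
    have h3 : ∀ i ∈ (Finset.univ : Finset (Fin d)), ∑ x ∈ M.U z, ∑ y ∈ M.U (z + ev i),
        (bm ι p hp).real (M.BP w n x y) ≤ (M.q : ℝ) ^ 3 * ∑ j ∈ M.E z M.γ, f j := by
      intro i _
      have h4 : ∀ x ∈ M.U z, ∑ y ∈ M.U (z + ev i), (bm ι p hp).real (M.BP w n x y) ≤
          (M.q : ℝ) ^ 2 * ∑ j ∈ M.E z M.γ, f j := by
        intro x hx
        have h5 : ∀ y ∈ M.U (z + ev i), (bm ι p hp).real (M.BP w n x y) ≤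
            M.q * ∑ j ∈ M.E z M.γ, f j := fun y hy =>
          M.BP_le (Or.inr ⟨i, rfl⟩) hsub hx hy
        refine (Finset.sum_le_card_nsmul _ _ _ h5).trans ?_
        rw [nsmul_eq_mul]
        have h6 : ((M.U (z + ev i)).card : ℝ) ≤ M.q := by exact_mod_cast M.card_U _
        have h7 := mul_le_mul_of_nonneg_right h6
          (mul_nonneg (Nat.cast_nonneg (α := ℝ) M.q) hS)
        refine h7.trans (le_of_eq (by ring))
      refine (Finset.sum_le_card_nsmul _ _ _ h4).trans ?_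
      rw [nsmul_eq_mul]
      have h6 : ((M.U z).card : ℝ) ≤ M.q := by exact_mod_cast M.card_U _
      have h7 := mul_le_mul_of_nonneg_right h6
        (mul_nonneg (pow_nonneg (Nat.cast_nonneg (α := ℝ) M.q) 2) hS)
      refine h7.trans (le_of_eq (by ring))
    refine (Finset.sum_le_card_nsmul _ _ _ h3).trans ?_
    rw [nsmul_eq_mul, Finset.card_univ, Fintype.card_fin]
    exact le_of_eq (by ring)
  refine (Finset.sum_le_sum h2).trans ?_
  rw [← Finset.mul_sum]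
  have h3 := M.sum_mul (w := w) (t := t) f hf0
  have h4 := mul_le_mul_of_nonneg_left h3 (by positivity : (0 : ℝ) ≤ d * (M.q : ℝ) ^ 3)
  refine h4.trans (le_of_eq (by ring))

end Cel

end Pool.Agent.W870.PD
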