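import Pool.Agent.W870.PD.Assemble

set_option autoImplicit false
set_option linter.all false

open MeasureTheory Set Pool.Agent.H978R2 Pool.Agent.W804.HP

namespace Pool.Agent.W870.PD

lemma ev_mem_bx (d : ℕ) (i : Fin d) : ev i ∈ bx (0 : Fin d → ℤ) 1 := by
  rw [mem_bx]
  intro j
  by_cases h : j = i
  · subst h; simp [ev]
  · simp [ev, h]

lemma bm_zero_open {ι : Type} (hp : (0 : NNReal) ≤ 1) (i : ι) :
    (bm ι 0 hp).real {ω : ι → Bool | ω i = true} = 0 := by
  unfold Measure.real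
  rw [bm_eval 0 hp i true]
  simp

lemma pos_of_polB (d : ℕ) (hd : 1 ≤ d) (p : NNReal) (hp : p ≤ 1) (h : PolB d p hp) : 0 < p := by
  by_contra hcon
  have h0 : p = 0 := le_antisymm (not_lt.1 hcon) bot_le
  subst h0
  obtain ⟨C, D, hC, h⟩ := h
  set i : Fin d := ⟨0, by omega⟩
  have h1 := h 1 le_rfl (ev i) (ev_mem_bx d i)
  have h2 : (bm _ 0 hp).real (XB (0 : Fin d → ℤ) (ev i) 0 (C * 1)) = 0 := by
    have hsub : XB (0 : Fin d → ℤ) (ev i) 0 (C * 1) ⊆ ⋃ e ∈ bE (0 : Fin d → ℤ) (C * 1),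
        {ω : Sym2 (Fin d → ℤ) → Bool | ω e = true} := by
      intro ω hω
      have hc : Con bN (bE 0 (C * 1)) ω 0 (ev i) := hω
      rcases Relation.ReflTransGen.cases_head hc with h3 | ⟨w, ⟨e, he, ho, _⟩, _⟩
      · exfalso
        have := congrFun h3 i
        simp [ev] at this
      · simp only [mem_iUnion, exists_prop]
        exact ⟨e, he, ho⟩
    refine le_antisymm ?_ measureReal_nonneg
    refine (measureReal_mono hsub (measure_ne_top _ _)).trans
      ((measureReal_biUnion_finset_le _ _).trans ?_)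
    rw [Finset.sum_eq_zero fun e _ => bm_zero_open hp e]
  rw [h2] at h1
  simp at h1
  linarith

lemma pos_of_polS (d : ℕ) (p : NNReal) (hp : p ≤ 1) (h : PolS d p hp) : 0 < p := by
  by_contra hcon
  have h0 : p = 0 := le_antisymm (not_lt.1 hcon) bot_le
  subst h0
  obtain ⟨C, D, hC, h⟩ := h
  have h1 := h 1 le_rfl 0 (self_mem_bx 0 1)
  have h2 : (bm _ 0 hp).real (XS (0 : Fin d → ℤ) 0 0 (C * 1)) = 0 := by
    have hsub : XS (0 : Fin d → ℤ) 0 0 (C * 1) ⊆ {ω : (Fin d → ℤ) → Bool | ω 0 = true} := by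
      intro ω hω
      exact hω.1.2.2.1
    refine le_antisymm ?_ measureReal_nonneg
    refine (measureReal_mono hsub (measure_ne_top _ _)).trans (le_of_eq (bm_zero_open hp 0))
  rw [h2] at h1
  simp at h1
  linarith

end Pool.Agent.W870.PD
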