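import Pool.Agent.W870.PD.Defs

/-!
# Statements of the parts
-/

set_option autoImplicit false
set_option linter.all false

open MeasureTheory Set Pool.Agent.H978R2 Pool.Agent.W804.HP

namespace Pool.Agent.W870.PD

/-- ISO1 (isoperimetric inequality in a box of the lattice, `d ≥ 3`) -/
def S_iso1 : Prop := ∀ (d : ℕ) (w : Fin d → ℤ) (t : ℕ) (A : Finset (Fin d → ℤ)), 3 ≤ d →
  A ⊆ bx w t → 4 * A.card ≤ 3 * (2 * t + 1) ^ d → A.card ^ 2 ≤ 512 * (bdy w t A).card ^ 3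

/-- ISO2 (canonical paths) -/
def S_iso2 : Prop := ∀ (d : ℕ) (w : Fin d → ℤ) (t : ℕ) (A : Finset (Fin d → ℤ)),
  A ⊆ bx w t → A.card * ((2 * t + 1) ^ d - A.card) ≤ (bdy w t A).card * (2 * t + 1) ^ (d + 1)

/-- AKN (cluster-wise bound) -/
def S_akn : Prop := ∀ (ι V : Type) [DecidableEq ι] (N : ι → Set V) (E R : Finset ι)
  (B : Finset V) (p s : ℝ),
  0 < p → p ≤ 1 → 1 ≤ s → (B.card : ℝ) * (E.card : ℝ) ^ 2 * Real.exp (-s) ≤ 1 →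
  p * ∑ i ∈ E ∩ R, EE E p (I1 (TW N E (B : Set V) i)) ≤
    2 * Real.sqrt s * EE E p (fun ω => ∑ C ∈ CC N E ω B, Real.sqrt ((NR N E R C).card : ℝ)) + 1

/-- COARSE: good coarse sites percolate -/
def S_coarse : Prop := ∀ (d : ℕ) (ι V : Type) (M : Geo d ι V) (t : ℕ) (p : NNReal) (hp : p ≤ 1),
  2 ≤ d → 1 ≤ t → (∀ u : ℤ × ℤ, (bm ι p hp).real (M.Good t u)ᶜ ≤ 1 / 10 ^ 12) →
  1 / 2 ≤ (bm ι p hp).real {ω | ∀ R : ℕ, ∃ f ∈ M.F 0 (4 * t), ∃ z, z ∉ bx 0 R ∧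
    ∃ v ∈ M.U z, ∃ m, Con M.N (M.E 0 m) ω f v}

/-- MAIN: voids of small probability imply that coarse sites are good -/
def S_main : Prop := ∀ d : ℕ, 3 ≤ d → ∃ q0 : ℕ, ∀ (ι V : Type) (p : NNReal) (hp : p ≤ 1)
  (M : Cel d ι V p hp), q0 ≤ M.q →
  (∀ z : Fin d → ℤ, (bm ι p hp).real {ω | ∀ x ∈ M.U z, x ∉ M.cB z (8 * M.q ^ 50) ω} ≤
    1 / (M.q : ℝ) ^ (200 * d)) →
  ∀ u : ℤ × ℤ, (bm ι p hp).real (M.Good (M.q ^ 50) u)ᶜ ≤ 1 / 10 ^ 13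

/-- CONT: continuity in `p` of the probability of an event which depends on finitely many
hyperedges -/
def S_cont : Prop := ∀ (ι : Type) (J : Finset ι) (A : Set (ι → Bool)) (p p' : NNReal) (hp : p ≤ 1)
  (hp' : p' ≤ 1), DepOn (J : Set ι) A →
  |(bm ι p hp).real A - (bm ι p' hp').real A| ≤ J.card * |(p : ℝ) - p'|

end Pool.Agent.W870.PD
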