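import Pool.Agent.W870.PD.Basic
import Pool.Agent.W870.PD.Stmts

set_option autoImplicit false
set_option linter.all false

open MeasureTheory Set Pool.Agent.H978R2 Pool.Agent.W804.HP

namespace Pool.Agent.W870.PD

namespace Geo

variable {d : ℕ} {ι V : Type} (M : Geo d ι V)

/-- pointwise bound of the square roots of the volumes -/
lemma SV_le (hI : S_iso1) (hd : 3 ≤ d) {w : Fin d → ℤ} {n t t' g : ℕ} (ht : t ≤ n) (h' : t' ≤ t)
    (hg : 1 ≤ g) (hg6 : g ^ 6 ≤ t - t') (ω : ι → Bool) :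
    M.SV w n t' ω ≤ 2 * M.q * Real.sqrt ((2 * t + 1) ^ d) + 16 / g * M.NB w n t ω +
      M.q * (2 * t + 1) ^ d * I1 (M.Hall w n t)ᶜ ω := by
  classical
  have hg0 : (0 : ℝ) < g := by exact_mod_cast hg
  have hNB : 0 ≤ M.NB w n t ω := by
    unfold NB
    exact Finset.sum_nonneg fun z _ => Finset.sum_nonneg fun i _ => Finset.sum_nonneg fun x _ =>
      Finset.sum_nonneg fun y _ => I1_nonneg _ _
  have hL : (0 : ℝ) < (2 * (t : ℝ) + 1) ^ d := by positivity
  by_cases hH : ω ∈ M.Hall w n t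
  swap
  · -- the trivial bound
    rw [I1_mem (show ω ∈ (M.Hall w n t)ᶜ from hH)]
    have h1 : M.SV w n t' ω ≤ M.q * (2 * t + 1) ^ d := by
      unfold SV
      have h2 : ∀ C ∈ M.CL w n ω, Real.sqrt ((M.cells w t' C).card : ℝ) ≤
          ((M.cells w t C).card : ℝ) := by
        intro C _
        have h3 : ((M.cells w t' C).card : ℝ) ≤ ((M.cells w t C).card : ℝ) := by
          exact_mod_cast Finset.card_le_card (M.cells_mono w h' C)
        refine (Real.sqrt_le_sqrt h3).trans ?_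
        rw [Real.sqrt_le_left (Nat.cast_nonneg _)]
        have : ((M.cells w t C).card : ℝ) ≤ (((M.cells w t C).card ^ 2 : ℕ) : ℝ) := by
          exact_mod_cast Nat.le_self_pow (by norm_num) _
        push_cast at this
        exact this
      refine (Finset.sum_le_sum h2).trans ?_
      have := M.vol_sum w n t ω
      exact_mod_cast this
    have h2 : 0 ≤ 2 * (M.q : ℝ) * Real.sqrt ((2 * t + 1) ^ d) := by positivity
    have h3 : 0 ≤ 16 / (g : ℝ) * M.NB w n t ω := by positivity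
    linarith
  -- the good case
  rw [I1_not (show ω ∉ (M.Hall w n t)ᶜ from fun h => h hH), mul_zero, add_zero]
  set v : Set V → ℝ := fun C => ((M.cells w t C).card : ℝ) with hv
  set b : Set V → ℝ := fun C => ((bdy w t (M.cells w t C)).card : ℝ) with hb
  have hbS : ∑ C ∈ M.CL w n ω, b C ≤ 2 * M.NB w n t ω := by
    have := M.bdy_sum hH
    push_cast at this
    exact this
  have hvS : ∑ C ∈ M.CL w n ω, v C ≤ M.q * (2 * t + 1) ^ d := by
    have := M.vol_sum w n t ω
    have h2 : ∑ C ∈ M.CL w n ω, v C = ((∑ C ∈ M.CL w n ω, (M.cells w t C).card : ℕ) : ℝ) := by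
      push_cast; rfl
    rw [h2]
    exact_mod_cast this
  have key : ∀ C ∈ M.CL w n ω, Real.sqrt ((M.cells w t' C).card : ℝ) ≤
      2 * Real.sqrt ((2 * t + 1) ^ d) / (2 * t + 1) ^ d * v C + 8 / g * b C := by
    intro C hC
    have hb0 : 0 ≤ b C := Nat.cast_nonneg _
    have hv0 : 0 ≤ v C := Nat.cast_nonneg _
    rcases (M.cells w t' C).eq_empty_or_nonempty with he | hne
    · rw [he]
      simp only [Finset.card_empty, Nat.cast_zero, Real.sqrt_zero]
      positivity
    have hlev := M.level hC h' ht hne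
    have hvt : ((M.cells w t' C).card : ℝ) ≤ v C := by
      show ((M.cells w t' C).card : ℝ) ≤ ((M.cells w t C).card : ℝ)
      exact_mod_cast Finset.card_le_card (M.cells_mono w h' C)
    have hs : Real.sqrt ((M.cells w t' C).card : ℝ) ≤ Real.sqrt (v C) := Real.sqrt_le_sqrt hvt
    by_cases hsmall : 4 * (M.cells w t C).card ≤ 3 * (2 * t + 1) ^ d
    · -- isoperimetry
      have h1 := hI d w t (M.cells w t C) hd (by
        unfold cells; exact Finset.filter_subset _ _) hsmall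
      have h1' : v C ^ 2 ≤ 512 * b C ^ 3 := by
        show ((M.cells w t C).card : ℝ) ^ 2 ≤ 512 * ((bdy w t (M.cells w t C)).card : ℝ) ^ 3
        exact_mod_cast h1
      have h2 : (g : ℝ) ^ 6 ≤ v C := by
        have : g ^ 6 ≤ (M.cells w t C).card := hg6.trans hlev
        show (g : ℝ) ^ 6 ≤ ((M.cells w t C).card : ℝ)
        exact_mod_cast this
      have hsq : Real.sqrt (v C) ^ 2 = v C := Real.sq_sqrt hv0
      have hs0 : 0 ≤ Real.sqrt (v C) := Real.sqrt_nonneg _
      have h3 : (g : ℝ) ^ 3 ≤ Real.sqrt (v C) := by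
        refine Real.le_sqrt_of_sq_le ?_
        calc ((g : ℝ) ^ 3) ^ 2 = (g : ℝ) ^ 6 := by ring
          _ ≤ v C := h2
      have h4 : (g * Real.sqrt (v C)) ^ 3 ≤ (8 * b C) ^ 3 := by
        calc (g * Real.sqrt (v C)) ^ 3 = (g : ℝ) ^ 3 * (Real.sqrt (v C)) ^ 3 := by ring
          _ ≤ Real.sqrt (v C) * (Real.sqrt (v C)) ^ 3 :=
              mul_le_mul_of_nonneg_right h3 (by positivity)
          _ = (Real.sqrt (v C) ^ 2) ^ 2 := by ring
          _ = v C ^ 2 := by rw [hsq]
          _ ≤ 512 * b C ^ 3 := h1'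
          _ = (8 * b C) ^ 3 := by ring
      have h5 : g * Real.sqrt (v C) ≤ 8 * b C :=
        le_of_pow_le_pow_left₀ (by norm_num) (by positivity) h4
      have h6 : Real.sqrt (v C) ≤ 8 / g * b C := by
        rw [div_mul_eq_mul_div, le_div_iff₀ hg0]
        linarith
      have h7 : 0 ≤ 2 * Real.sqrt ((2 * (t : ℝ) + 1) ^ d) / (2 * t + 1) ^ d * v C := by positivity
      linarith
    · -- large clusters
      push Not at hsmall
      have h1 : 3 * (2 * (t : ℝ) + 1) ^ d ≤ 4 * v C := by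
        have h2 : ((3 * (2 * t + 1) ^ d : ℕ) : ℝ) ≤ ((4 * (M.cells w t C).card : ℕ) : ℝ) := by
          exact_mod_cast hsmall.le
        push_cast at h2
        exact h2
      have h2 : v C ≤ (2 * (t : ℝ) + 1) ^ d := by
        have h3 := M.cells_card_le w t C
        have h4 : ((M.cells w t C).card : ℝ) ≤ (((2 * t + 1) ^ d : ℕ) : ℝ) := by exact_mod_cast h3
        push_cast at h4
        exact h4
      have h3 : Real.sqrt (v C) ≤ Real.sqrt ((2 * t + 1) ^ d) := Real.sqrt_le_sqrt h2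
      have h4 : Real.sqrt ((2 * (t : ℝ) + 1) ^ d) ≤
          2 * Real.sqrt ((2 * t + 1) ^ d) / (2 * t + 1) ^ d * v C := by
        rw [div_mul_eq_mul_div, le_div_iff₀ hL]
        have h5 : 0 ≤ Real.sqrt ((2 * (t : ℝ) + 1) ^ d) := Real.sqrt_nonneg _
        nlinarith
      have h5 : 0 ≤ 8 / (g : ℝ) * b C := by positivity
      linarith
  unfold SV
  refine (Finset.sum_le_sum key).trans ?_
  rw [Finset.sum_add_distrib, ← Finset.mul_sum, ← Finset.mul_sum]
  have e1 : 2 * Real.sqrt ((2 * (t : ℝ) + 1) ^ d) / (2 * t + 1) ^ d * ∑ C ∈ M.CL w n ω, v C ≤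
      2 * M.q * Real.sqrt ((2 * t + 1) ^ d) := by
    have h1 := mul_le_mul_of_nonneg_left hvS
      (by positivity : 0 ≤ 2 * Real.sqrt ((2 * (t : ℝ) + 1) ^ d) / (2 * t + 1) ^ d)
    refine h1.trans (le_of_eq ?_)
    field_simp
  have e2 : 8 / (g : ℝ) * ∑ C ∈ M.CL w n ω, b C ≤ 16 / g * M.NB w n t ω := by
    have h1 := mul_le_mul_of_nonneg_left hbS (by positivity : 0 ≤ 8 / (g : ℝ))
    refine h1.trans (le_of_eq (by ring))
  linarith

/-- when no cluster dominates, the interface is large -/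
lemma NB_ge (hI : S_iso2) (hd : 1 ≤ d) {w : Fin d → ℤ} {n t : ℕ} {ω : ι → Bool}
    (hH : ω ∈ M.Hall w n t) (hD : ω ∉ M.Dom w n t) :
    (2 * (t : ℝ) + 1) ^ (d - 1) ≤ 16 * M.NB w n t ω := by
  classical
  have hbS := M.bdy_sum hH
  set L : ℕ := 2 * t + 1 with hL
  -- total volume
  have h1 : L ^ d ≤ ∑ C ∈ M.CL w n ω, (M.cells w t C).card := by
    have h1 : ∀ C : Set V, (M.cells w t C).card = ∑ z ∈ bx w t, if M.tc C z then 1 else 0 := by
      intro C
      unfold cells
      rw [Finset.card_filter]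
    simp only [h1]
    rw [Finset.sum_comm]
    have h2 : ∀ z ∈ bx w t, 1 ≤ ∑ C ∈ M.CL w n ω, (if M.tc C z then 1 else 0) := by
      intro z hz
      rw [← Finset.card_filter]
      obtain ⟨x, hx, hxc⟩ := hH z hz
      have h3 := mem_CC.2 ⟨hxc, rfl⟩
      exact Finset.card_pos.2 ⟨_, Finset.mem_filter.2 ⟨h3.1, x, hx, h3.2⟩⟩
    have h3 := Finset.card_nsmul_le_sum (bx w t) _ 1 h2
    rw [card_bx, smul_eq_mul, mul_one] at h3
    exact h3
  have h2 : ∀ C ∈ M.CL w n ω, (M.cells w t C).card * L ^ d ≤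
      8 * ((bdy w t (M.cells w t C)).card * L ^ (d + 1)) := by
    intro C hC
    have h3 := hI d w t (M.cells w t C) (by unfold cells; exact Finset.filter_subset _ _)
    have h4 : 8 * (M.cells w t C).card < 7 * L ^ d := by
      by_contra hcon
      push Not at hcon
      unfold CL CC at hC
      rw [Finset.mem_image] at hC
      obtain ⟨f, hf, rfl⟩ := hC
      exact hD ⟨f, hf, hcon⟩
    have h5 : L ^ d ≤ 8 * (L ^ d - (M.cells w t C).card) := by omega
    calc (M.cells w t C).card * L ^ d ≤ (M.cells w t C).card * (8 * (L ^ d - (M.cells w t C).card)) :=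
          Nat.mul_le_mul_left _ h5
      _ = 8 * ((M.cells w t C).card * (L ^ d - (M.cells w t C).card)) := by ring
      _ ≤ 8 * ((bdy w t (M.cells w t C)).card * L ^ (d + 1)) := Nat.mul_le_mul_left _ h3
  have h3 : (∑ C ∈ M.CL w n ω, (M.cells w t C).card) * L ^ d ≤
      8 * ((∑ C ∈ M.CL w n ω, (bdy w t (M.cells w t C)).card) * L ^ (d + 1)) := by
    rw [Finset.sum_mul, Finset.sum_mul, Finset.mul_sum]
    exact Finset.sum_le_sum h2
  have h4 : L ^ d * L ^ d ≤ 8 * ((∑ C ∈ M.CL w n ω, (bdy w t (M.cells w t C)).card) * L ^ (d + 1)) :=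
    (Nat.mul_le_mul_right _ h1).trans h3
  have hLpos : 0 < L := by omega
  have h5 : L ^ (d - 1) ≤ 8 * ∑ C ∈ M.CL w n ω, (bdy w t (M.cells w t C)).card := by
    have e1 : L ^ d * L ^ d = L ^ (d - 1) * L ^ (d + 1) := by
      rw [← pow_add, ← pow_add]
      congr 1
      omega
    rw [e1, ← mul_assoc] at h4
    exact Nat.le_of_mul_le_mul_right h4 (by positivity)
  have h6 : ((L ^ (d - 1) : ℕ) : ℝ) ≤ 8 * ((∑ C ∈ M.CL w n ω, (bdy w t (M.cells w t C)).card : ℕ) : ℝ) := by
    exact_mod_cast h5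
  rw [hL] at h6
  push_cast at h6 hbS
  linarith

end Geo

end Pool.Agent.W870.PD
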