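import Pool.Agent.W870.PD.Glu
import Pool.Agent.W870.PD.Pt

set_option autoImplicit false
set_option linter.all false

open MeasureTheory Set Pool.Agent.H978R2 Pool.Agent.W804.HP

namespace Pool.Agent.W870.PD

namespace Cel

variable {d : ℕ} {ι V : Type} {p : NNReal} {hp : p ≤ 1} (M : Cel d ι V p hp)

/-- expectation of the sum of the square roots of the volumes -/
noncomputable def eS (w : Fin d → ℤ) (n t : ℕ) : ℝ := EE (M.E w n) p (M.SV w n t)

include M in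
lemma p_pos : (0 : ℝ) < p := by
  have h := M.hpq
  by_contra hcon
  have h0 : (p : ℝ) = 0 := le_antisymm (not_lt.1 hcon) p.2
  rw [h0, mul_zero] at h
  linarith

lemma q_pos' : (0 : ℝ) < M.q := by
  have := M.q_pos
  have : 0 < M.q := by omega
  exact_mod_cast this

lemma eS_nonneg (w : Fin d → ℤ) (n t : ℕ) : 0 ≤ M.eS w n t := by
  have := EE_mono (E := M.E w n) (p := (p : ℝ)) p.2 (by exact_mod_cast hp) (f := fun _ => 0)
    (g := M.SV w n t) fun ω => by
      unfold Geo.SV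
      exact Finset.sum_nonneg fun C _ => Real.sqrt_nonneg _
  rwa [EE_const] at this

lemma eS_mono (w : Fin d → ℤ) (n : ℕ) {t t' : ℕ} (h : t' ≤ t) : M.eS w n t' ≤ M.eS w n t := by
  refine EE_mono p.2 (by exact_mod_cast hp) fun ω => ?_
  unfold Geo.SV
  refine Finset.sum_le_sum fun C _ => Real.sqrt_le_sqrt ?_
  exact_mod_cast Finset.card_le_card (M.cells_mono w h C)

lemma eS_le (w : Fin d → ℤ) (n t : ℕ) : M.eS w n t ≤ M.q * (2 * t + 1) ^ d := by
  have := EE_mono (E := M.E w n) (p := (p : ℝ)) p.2 (by exact_mod_cast hp)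
    (f := M.SV w n t) (g := fun _ => M.q * (2 * (t : ℝ) + 1) ^ d) fun ω => by
      unfold Geo.SV
      have h2 : ∀ C ∈ M.CL w n ω, Real.sqrt ((M.cells w t C).card : ℝ) ≤
          ((M.cells w t C).card : ℝ) := by
        intro C _
        rw [Real.sqrt_le_left (Nat.cast_nonneg _)]
        have : ((M.cells w t C).card : ℝ) ≤ (((M.cells w t C).card ^ 2 : ℕ) : ℝ) := by
          exact_mod_cast Nat.le_self_pow (by norm_num) _
        push_cast at this
        exact this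
      refine (Finset.sum_le_sum h2).trans ?_
      have := M.vol_sum w n t ω
      exact_mod_cast this
  rwa [EE_const] at this

/-- the Aizenman-Kesten-Newman bound for the number of hyperedges touching two clusters -/
lemma ET_le (hA : S_akn) (w : Fin d → ℤ) {n t : ℕ} (ht : t ≤ n)
    (hc : ((M.F w n).card : ℝ) * ((M.E w n).card : ℝ) ^ 2 * Real.exp (-(M.q : ℝ)) ≤ 1) :
    EE (M.E w n) p (M.NT w n t) ≤ M.q * (2 * M.q * M.eS w n t + 1) := by
  classical
  have hq := M.q_pos'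
  have hq1 : (1 : ℝ) ≤ M.q := by
    have := M.q_pos
    have : 1 ≤ M.q := by omega
    exact_mod_cast this
  have h1 := hA ι V M.N (M.E w n) (M.E w t) (M.F w n) p M.q M.p_pos (by exact_mod_cast hp) hq1 hc
  have hsub : M.E w t ⊆ M.E w n := M.E_mono _ _ _ _ (bx_mono w ht)
  rw [Finset.inter_eq_right.2 hsub] at h1
  have h2 : EE (M.E w n) p (M.NT w n t) =
      ∑ i ∈ M.E w t, EE (M.E w n) p (I1 (TW M.N (M.E w n) (M.F w n : Set V) i)) := by
    unfold Geo.NT
    rw [EE_sum]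
  rw [← h2] at h1
  have h3 : EE (M.E w n) p (fun ω => ∑ C ∈ CC M.N (M.E w n) ω (M.F w n),
      Real.sqrt ((NR M.N (M.E w n) (M.E w t) C).card : ℝ)) ≤ Real.sqrt M.q * M.eS w n t := by
    unfold eS
    rw [← EE_mul]
    refine EE_mono p.2 (by exact_mod_cast hp) fun ω => ?_
    unfold Geo.SV
    rw [Finset.mul_sum]
    refine Finset.sum_le_sum fun C _ => ?_
    rw [← Real.sqrt_mul (Nat.cast_nonneg _)]
    refine Real.sqrt_le_sqrt ?_
    exact_mod_cast M.NR_le w n t C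
  have h4 := mul_le_mul_of_nonneg_left h3 (by positivity : 0 ≤ 2 * Real.sqrt (M.q : ℝ))
  have h5 : 2 * Real.sqrt (M.q : ℝ) * (Real.sqrt M.q * M.eS w n t) = 2 * M.q * M.eS w n t := by
    have := Real.mul_self_sqrt (Nat.cast_nonneg (α := ℝ) M.q)
    calc _ = 2 * (Real.sqrt (M.q : ℝ) * Real.sqrt M.q) * M.eS w n t := by ring
      _ = _ := by rw [this]
  rw [h5] at h4
  have h6 : (p : ℝ) * EE (M.E w n) p (M.NT w n t) ≤ 2 * M.q * M.eS w n t + 1 := by linarith
  have h0 : 0 ≤ EE (M.E w n) p (M.NT w n t) := by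
    rw [EE_NT]; exact Finset.sum_nonneg fun j _ => measureReal_nonneg
  have h7 := mul_le_mul_of_nonneg_right M.hpq h0
  have h8 := mul_le_mul_of_nonneg_left h6 hq.le
  calc EE (M.E w n) p (M.NT w n t) = 1 * EE (M.E w n) p (M.NT w n t) := by ring
    _ ≤ M.q * p * EE (M.E w n) p (M.NT w n t) := h7
    _ = M.q * (p * EE (M.E w n) p (M.NT w n t)) := by ring
    _ ≤ _ := h8

lemma ENB_le (hA : S_akn) (w : Fin d → ℤ) {n t : ℕ} (ht : t + M.γ ≤ n)
    (hc : ((M.F w n).card : ℝ) * ((M.E w n).card : ℝ) ^ 2 * Real.exp (-(M.q : ℝ)) ≤ 1) :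
    EE (M.E w n) p (M.NB w n t) ≤ d * (M.q : ℝ) ^ 5 * (2 * M.q * M.eS w n (t + M.γ) + 1) := by
  have h1 := M.EE_NB_le w ht
  have h2 := M.ET_le hA w ht hc
  have h3 := mul_le_mul_of_nonneg_left h2 (by positivity : 0 ≤ (d : ℝ) * (M.q : ℝ) ^ 4)
  refine h1.trans (h3.trans (le_of_eq (by ring)))

lemma dep_Hall (w : Fin d → ℤ) (n t : ℕ) : DepOn (M.E w n : Set ι) (M.Hall w n t) := by
  intro ω ω' h
  unfold Geo.Hall Geo.cB
  simp only [mem_setOf_eq]
  rw [cl_congr (fun i hi => h i hi)]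

/-- the recursion -/
lemma rec_step (hA : S_akn) (hI : S_iso1) (hd : 3 ≤ d) (w : Fin d → ℤ) {n t t' g : ℕ}
    (ht : t + M.γ ≤ n) (h' : t' ≤ t) (hg6 : g ^ 6 ≤ t - t') (hg : 64 * d * M.q ^ 6 ≤ g)
    (hc : ((M.F w n).card : ℝ) * ((M.E w n).card : ℝ) ^ 2 * Real.exp (-(M.q : ℝ)) ≤ 1)
    (hH : M.q * (2 * (t : ℝ) + 1) ^ d * (bm ι p hp).real (M.Hall w n t)ᶜ ≤ 1) :
    M.eS w n t' ≤ (2 * M.q * Real.sqrt ((2 * n + 1) ^ d) + 2) + (1 / 2) * M.eS w n (t + M.γ) := by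
  classical
  have hq := M.q_pos'
  have hq1 : (1 : ℝ) ≤ M.q := by
    have := M.q_pos
    have : 1 ≤ M.q := by omega
    exact_mod_cast this
  have hg1 : 1 ≤ g := by
    have h1 : 0 < M.q := by have := M.q_pos; omega
    have : 0 < 64 * d * M.q ^ 6 := by positivity
    omega
  have hg0 : (0 : ℝ) < g := by exact_mod_cast hg1
  have hgR : 64 * (d : ℝ) * (M.q : ℝ) ^ 6 ≤ g := by exact_mod_cast hg
  have h1 : M.eS w n t' ≤ 2 * M.q * Real.sqrt ((2 * t + 1) ^ d) +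
      16 / g * EE (M.E w n) p (M.NB w n t) +
      M.q * (2 * t + 1) ^ d * (bm ι p hp).real (M.Hall w n t)ᶜ := by
    have h2 := EE_mono (E := M.E w n) (p := (p : ℝ)) p.2 (by exact_mod_cast hp)
      (f := M.SV w n t') (g := fun ω => (2 * M.q * Real.sqrt ((2 * t + 1) ^ d) + 16 / g * M.NB w n t ω) +
        M.q * (2 * t + 1) ^ d * I1 (M.Hall w n t)ᶜ ω) fun ω =>
        M.SV_le hI hd (by omega) h' hg1 hg6 ω
    rw [EE_add, EE_add, EE_const, EE_mul, EE_mul] at h2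
    rw [bm_real_eq_EE p hp (M.dep_Hall w n t).compl]
    exact h2
  have h2 := M.ENB_le hA w ht hc
  have h3 := mul_le_mul_of_nonneg_left h2 (by positivity : 0 ≤ 16 / (g : ℝ))
  have he := M.eS_nonneg w n (t + M.γ)
  have h4 : 16 / (g : ℝ) * (d * (M.q : ℝ) ^ 5 * (2 * M.q * M.eS w n (t + M.γ) + 1)) ≤
      (1 / 2) * M.eS w n (t + M.γ) + 1 := by
    have h5 : 16 / (g : ℝ) * (d * (M.q : ℝ) ^ 5) ≤ 1 / (4 * M.q) := by
      rw [div_mul_eq_mul_div, div_le_div_iff₀ hg0 (by positivity)]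
      have e : 16 * ((d : ℝ) * (M.q : ℝ) ^ 5) * (4 * (M.q : ℝ)) = 64 * (d : ℝ) * (M.q : ℝ) ^ 6 := by
        ring
      rw [e, one_mul]
      exact hgR
    have h6 : 0 ≤ 2 * M.q * M.eS w n (t + M.γ) + 1 := by positivity
    have h7 := mul_le_mul_of_nonneg_right h5 h6
    have h8 : 1 / (4 * (M.q : ℝ)) * (2 * M.q * M.eS w n (t + M.γ) + 1) =
        (1 / 2) * M.eS w n (t + M.γ) + 1 / (4 * M.q) := by
      field_simp
      ring
    have h9 : 1 / (4 * (M.q : ℝ)) ≤ 1 := by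
      rw [div_le_one (by positivity)]
      linarith
    calc 16 / (g : ℝ) * (d * (M.q : ℝ) ^ 5 * (2 * M.q * M.eS w n (t + M.γ) + 1)) =
        16 / (g : ℝ) * (d * (M.q : ℝ) ^ 5) * (2 * M.q * M.eS w n (t + M.γ) + 1) := by ring
      _ ≤ 1 / (4 * (M.q : ℝ)) * (2 * M.q * M.eS w n (t + M.γ) + 1) := h7
      _ = (1 / 2) * M.eS w n (t + M.γ) + 1 / (4 * M.q) := h8
      _ ≤ _ := by linarith
  have h5 : Real.sqrt ((2 * (t : ℝ) + 1) ^ d) ≤ Real.sqrt ((2 * n + 1) ^ d) := by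
    refine Real.sqrt_le_sqrt ?_
    have : (t : ℝ) ≤ n := by
      have : t ≤ n := by omega
      exact_mod_cast this
    gcongr
  have h6 := mul_le_mul_of_nonneg_left h5 (by positivity : 0 ≤ 2 * (M.q : ℝ))
  linarith

/-- iteration of the recursion -/
lemma eS_bound (hA : S_akn) (hI : S_iso1) (hd : 3 ≤ d) (w : Fin d → ℤ) {n g T J t1 : ℕ}
    (hTn : T ≤ n) (ht1 : t1 + J * (g ^ 6 + M.γ) ≤ T) (hg : 64 * d * M.q ^ 6 ≤ g)
    (hc : ((M.F w n).card : ℝ) * ((M.E w n).card : ℝ) ^ 2 * Real.exp (-(M.q : ℝ)) ≤ 1)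
    (hH : ∀ t ≤ T, M.q * (2 * (t : ℝ) + 1) ^ d * (bm ι p hp).real (M.Hall w n t)ᶜ ≤ 1)
    (hJ : (M.q : ℝ) * (2 * n + 1) ^ d ≤ 2 ^ J) :
    M.eS w n t1 ≤ 4 * M.q * Real.sqrt ((2 * n + 1) ^ d) + 5 := by
  set K : ℝ := 2 * M.q * Real.sqrt ((2 * n + 1) ^ d) + 2 with hK
  have hK0 : 0 ≤ K := by positivity
  have key : ∀ j : ℕ, j * (g ^ 6 + M.γ) ≤ T →
      M.eS w n (T - j * (g ^ 6 + M.γ)) ≤ 2 * K + (1 / 2) ^ j * M.eS w n T := by
    intro j
    induction j with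
    | zero =>
      intro _
      simp
      linarith
    | succ j ih =>
      intro hj
      have hj' : j * (g ^ 6 + M.γ) + (g ^ 6 + M.γ) ≤ T := by
        have : (j + 1) * (g ^ 6 + M.γ) = j * (g ^ 6 + M.γ) + (g ^ 6 + M.γ) := by ring
        omega
      have ih' := ih (by omega)
      set D := g ^ 6 + M.γ with hD
      have hj1 : (j + 1) * D = j * D + D := by ring
      rw [hj1]
      set t := T - j * D - M.γ with ht
      have e1 : t + M.γ = T - j * D := by omega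
      have e2 : T - (j * D + D) = t - g ^ 6 := by omega
      have h1 := M.rec_step hA hI hd w (n := n) (t := t) (t' := T - (j * D + D)) (g := g)
        (by omega) (by omega) (by omega) hg hc (hH t (by omega))
      rw [e1] at h1
      have h2 : (1 / 2 : ℝ) ^ (j + 1) = (1 / 2) ^ j * (1 / 2) := pow_succ _ _
      rw [h2]
      linarith
  have h1 := key J (by omega)
  have h2 : M.eS w n t1 ≤ M.eS w n (T - J * (g ^ 6 + M.γ)) := M.eS_mono w n (by omega)
  have h3 : (1 / 2 : ℝ) ^ J * M.eS w n T ≤ 1 := by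
    have h4 : M.eS w n T ≤ 2 ^ J := by
      refine (M.eS_mono w n hTn).trans ((M.eS_le w n n).trans hJ)
    rw [one_div, inv_pow, inv_mul_le_iff₀ (by positivity)]
    linarith
  linarith

end Cel

end Pool.Agent.W870.PD
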