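import Pool.Agent.W870.PD.Stmts
import Pool.Agent.W804.HP.Site

/-!
# Statements for the two models
-/

set_option autoImplicit false
set_option linter.all false

open MeasureTheory Set Pool.Agent.H978R2 Pool.Agent.W804.HP

namespace Pool.Agent.W870.PD

/-- centre of the cell `w` (cells of radius `k`) -/
def cc {d : ℕ} (k : ℕ) (w : Fin d → ℤ) : Fin d → ℤ := fun i => (2 * (k : ℤ) + 1) * w i

/-- radius of a box of `2 m + 1` cells -/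
def rr (k m : ℕ) : ℕ := (2 * k + 1) * m + k

/-- polynomial lower bound for connections, bond percolation -/
def PolB (d : ℕ) (p : NNReal) (hp : p ≤ 1) : Prop := ∃ C D : ℕ, 1 ≤ C ∧ ∀ n : ℕ, 1 ≤ n →
  ∀ y ∈ bx (0 : Fin d → ℤ) n, (1 : ℝ) ≤ C * (n : ℝ) ^ D * (bm _ p hp).real (XB 0 y 0 (C * n))

/-- polynomial lower bound for connections, site percolation -/
def PolS (d : ℕ) (p : NNReal) (hp : p ≤ 1) : Prop := ∃ C D : ℕ, 1 ≤ C ∧ ∀ n : ℕ, 1 ≤ n →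
  ∀ y ∈ bx (0 : Fin d → ℤ) n, (1 : ℝ) ≤ C * (n : ℝ) ^ D * (bm _ p hp).real (XS 0 y 0 (C * n))

/-- INST-B -/
def S_instB : Prop := ∀ (d : ℕ) (p : NNReal) (hp : p ≤ 1), 1 ≤ d → 0 < p → PolB d p hp →
  ∃ A : ℕ, 1 ≤ A ∧ ∀ k : ℕ, 2 ≤ k → ∃ M : Cel d (Sym2 (Fin d → ℤ)) (Fin d → ℤ) p hp,
    M.q = k ^ A ∧ M.N = bN ∧ (∀ w m, M.E w m = bE (cc k w) (rr k m)) ∧
    (∀ w m, M.F w m = sph (cc k w) (rr k m)) ∧ (∀ z, M.U z = bx (cc k z) k)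

/-- INST-S -/
def S_instS : Prop := ∀ (d : ℕ) (p : NNReal) (hp : p ≤ 1), 1 ≤ d → 0 < p → PolS d p hp →
  ∃ A : ℕ, 1 ≤ A ∧ ∀ k : ℕ, 2 ≤ k → ∃ M : Cel d (Fin d → ℤ) (Sym2 (Fin d → ℤ)) p hp,
    M.q = k ^ A ∧ M.N = sN ∧ (∀ w m, M.E w m = bx (cc k w) (rr k m)) ∧
    (∀ w m, M.F w m = sF (cc k w) (rr k m)) ∧
    (∀ z e, e ∈ M.U z ↔ e ∈ (lat d).edgeSet ∧ ∃ v ∈ e, v ∈ bx (cc k z) k)

/-- the event that the box of radius `k` is not connected to the boundary of the box of radius `n`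
(bond percolation) -/
def VoidB (d k n : ℕ) : Set (Sym2 (Fin d → ℤ) → Bool) :=
  {ω | ∀ x ∈ bx (0 : Fin d → ℤ) k, ∀ y ∈ sph (0 : Fin d → ℤ) n,
    ¬ (openB ω (bx (0 : Fin d → ℤ) n)).Reachable x y}

/-- the same for site percolation: no open path in the box of radius `n` from an open site of the
box of radius `k` to an open site of the boundary -/
def VoidS (d k n : ℕ) : Set ((Fin d → ℤ) → Bool) :=
  {ω | ∀ x ∈ bx (0 : Fin d → ℤ) k, ∀ y ∈ sph (0 : Fin d → ℤ) n,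
    ¬ (ω x = true ∧ ω y = true ∧ (openS ω (bx (0 : Fin d → ℤ) n)).Reachable x y)}

/-- FIN-B -/
def S_finB : Prop := ∀ (d : ℕ) (p : NNReal) (hp : p ≤ 1), 3 ≤ d → 0 < p → PolB d p hp →
  ∃ C k0 : ℕ, ∀ k : ℕ, k0 ≤ k → (bm _ p hp).real (VoidB d k (k ^ C)) < 1 / (k : ℝ) ^ C →
  ∃ (p' : NNReal) (hp' : p' ≤ 1), p' < p ∧ 0 < (bm _ p' hp').real (InfB (0 : Fin d → ℤ))

/-- FIN-S -/
def S_finS : Prop := ∀ (d : ℕ) (p : NNReal) (hp : p ≤ 1), 3 ≤ d → 0 < p → PolS d p hp →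
  ∃ C k0 : ℕ, ∀ k : ℕ, k0 ≤ k → (bm _ p hp).real (VoidS d k (k ^ C)) < 1 / (k : ℝ) ^ C →
  ∃ (p' : NNReal) (hp' : p' ≤ 1), p' < p ∧ 0 < (bm _ p' hp').real (InfS (0 : Fin d → ℤ))

end Pool.Agent.W870.PD
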